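import Pool.Agent.X135.TC.Scales

/-!
The thinnest clusters: the lower bound for the tail.
-/

set_option autoImplicit false

namespace Pool.Agent.X135.TC

open H974 Finset H342P H984P Pool.Agent.Y244.PC Pool.Agent.X135.PL

theorem thin_tail_low {C0 : ℝ} (hC0 : 0 < C0) (hU : TwoUp C0 (1/4)) : ∃ C : ℝ, 0 < C ∧
    ∀ (n : ℕ) (θ : ℝ), 1 ≤ n → C ≤ θ * (n:ℝ) ^ (3/4:ℝ) → θ ≤ 1 →
      Real.exp (-(C * θ ^ (-(4/3):ℝ))) ≤ Plain.prob n (fun F => ∃ v, ∃ r : ℝ, 1 ≤ r ∧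
        DiamGe F v r ∧ (Plain.perimeter F v : ℝ) < θ * thin n r) := by
  obtain ⟨c, C, hc, hc1, hC, h⟩ := plain_joint_low hC0 hU
  have hl : 0 < Real.log (4 / c) := by
    apply Real.log_pos
    rw [lt_div_iff₀ hc]
    linarith
  obtain ⟨κ, hκ⟩ : ∃ κ : ℝ, κ = c ^ (7/4:ℝ) * (Real.log (4 / c)) ^ (-(3/4):ℝ) := ⟨_, rfl⟩
  have hκ0 : 0 < κ := by rw [hκ]; positivity
  obtain ⟨C1, hC1⟩ : ∃ C1 : ℝ, C1 = C * (1 / c ^ 2 + (2 / κ) ^ (4/3:ℝ) * c ^ (7/3:ℝ)) +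
    2 / κ + 1 / c ^ 2 := ⟨_, rfl⟩
  have p1 : 0 < C * (1 / c ^ 2 + (2 / κ) ^ (4/3:ℝ) * c ^ (7/3:ℝ)) := by positivity
  have p2 : 0 < 2 / κ := by positivity
  have p3 : 1 ≤ 1 / c ^ 2 := by
    rw [le_div_iff₀ (by positivity)]
    nlinarith
  refine ⟨C1, by rw [hC1]; linarith, ?_⟩
  intro n θ hn hθn hθ1
  have hn0 : (0:ℝ) < n := by exact_mod_cast hn
  have hn1 : (1:ℝ) ≤ n := by exact_mod_cast hn
  have hn34 : 0 < (n:ℝ) ^ (3/4:ℝ) := by positivity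
  have hθ0 : 0 < θ := by
    by_contra hcon
    push Not at hcon
    have : θ * (n:ℝ) ^ (3/4:ℝ) ≤ 0 := mul_nonpos_of_nonpos_of_nonneg hcon hn34.le
    rw [hC1] at hθn
    linarith
  have hnc : 1 ≤ c * (c * n) := by
    have h1 : (n:ℝ) ^ (3/4:ℝ) ≤ (n:ℝ) ^ (1:ℝ) :=
      Real.rpow_le_rpow_of_exponent_le hn1 (by norm_num)
    rw [Real.rpow_one] at h1
    have h2 : θ * (n:ℝ) ^ (3/4:ℝ) ≤ 1 * (n:ℝ) ^ (3/4:ℝ) :=
      mul_le_mul_of_nonneg_right hθ1 hn34.le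
    have h3 : 1 / c ^ 2 ≤ n := by rw [hC1] at hθn; linarith
    rw [div_le_iff₀ (by positivity)] at h3
    nlinarith
  obtain ⟨x, hx⟩ : ∃ x : ℝ, x = 2 / (κ * θ) := ⟨_, rfl⟩
  have hx0 : 0 < x := by rw [hx]; positivity
  have hxn : x * c ≤ c * (n:ℝ) ^ (3/4:ℝ) := by
    have h1 : x ≤ (n:ℝ) ^ (3/4:ℝ) := by
      rw [hx, div_le_iff₀ (by positivity)]
      have h2 : 2 / κ ≤ θ * (n:ℝ) ^ (3/4:ℝ) := by rw [hC1] at hθn; linarith
      rw [div_le_iff₀ hκ0] at h2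
      linarith
    nlinarith
  have hmain := h n x c hx0 hc le_rfl hnc hxn
  refine le_trans ?_ (hmain.trans ?_)
  · apply Real.exp_le_exp.mpr
    rw [neg_le_neg_iff]
    have h1 : 1 ≤ θ ^ (-(4/3):ℝ) := Real.one_le_rpow_of_pos_of_le_one_of_nonpos hθ0 hθ1 (by norm_num)
    have h2 : x ^ (4/3:ℝ) = (2 / κ) ^ (4/3:ℝ) * θ ^ (-(4/3):ℝ) := by
      rw [hx, show 2 / (κ * θ) = (2 / κ) * θ⁻¹ by field_simp, Real.mul_rpow (by positivity)
        (by positivity), Real.inv_rpow hθ0.le, ← Real.rpow_neg hθ0.le]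
    rw [h2]
    have h3 : 1 / c ^ 2 ≤ 1 / c ^ 2 * θ ^ (-(4/3):ℝ) := by
      have := mul_le_mul_of_nonneg_left h1 (by positivity : 0 ≤ 1 / c ^ 2)
      linarith
    calc C * (1 / c ^ 2 + (2 / κ) ^ (4/3:ℝ) * θ ^ (-(4/3):ℝ) * c ^ (7/3:ℝ))
        ≤ C * (1 / c ^ 2 * θ ^ (-(4/3):ℝ) + (2 / κ) ^ (4/3:ℝ) * θ ^ (-(4/3):ℝ) * c ^ (7/3:ℝ)) := by
          apply mul_le_mul_of_nonneg_left _ hC.le
          linarith
      _ = C * (1 / c ^ 2 + (2 / κ) ^ (4/3:ℝ) * c ^ (7/3:ℝ)) * θ ^ (-(4/3):ℝ) := by ring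
      _ ≤ C1 * θ ^ (-(4/3):ℝ) := by
          apply mul_le_mul_of_nonneg_right _ (by positivity)
          rw [hC1]
          linarith
  · rw [Plain.prob_eq, Plain.prob_eq]
    refine Pr_mono hok ?_
    intro F _ hall
    obtain ⟨v, hv⟩ := Plain.exists_largest n F
    obtain ⟨g1, g2, -⟩ := hall v hv
    refine ⟨v, c * n, ?_, g2, ?_⟩
    · nlinarith
    · have h1 : κ * (n:ℝ) ^ (7/4:ℝ) ≤ thin n (c * n) := by
        unfold thin
        refine le_trans (le_of_eq ?_) (le_max_right _ _)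
        rw [hκ, Real.mul_rpow hc.le hn0.le]
        have : 4 * (n:ℝ) / (c * n) = 4 / c := by field_simp
        rw [this]
        ring
      have h2 : (n:ℝ) ^ (7/4:ℝ) / x = κ * θ / 2 * (n:ℝ) ^ (7/4:ℝ) := by
        rw [hx]
        field_simp
      rw [h2] at g1
      have h3 : 0 < (n:ℝ) ^ (7/4:ℝ) := by positivity
      calc (Plain.perimeter F v : ℝ) ≤ κ * θ / 2 * (n:ℝ) ^ (7/4:ℝ) := g1
        _ < θ * (κ * (n:ℝ) ^ (7/4:ℝ)) := by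
            have : 0 < θ * (κ * (n:ℝ) ^ (7/4:ℝ)) := by positivity
            linarith
        _ ≤ θ * thin n (c * n) := mul_le_mul_of_nonneg_left h1 hθ0.le

/-- below the smallest possible value -/
theorem thin_det {n : ℕ} {F : Finset Plain.Edge} (hF : F ⊆ Plain.edges n) {v : ℤ × ℤ}
    {r : ℝ} (hr : 1 ≤ r) (h : DiamGe F v r) :
    thin n r ≤ 112 * (n:ℝ) ^ (3/4:ℝ) * (Plain.perimeter F v : ℝ) := by
  obtain ⟨g1, g2⟩ := diam_facts hF hr h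
  have hr0 : 0 < r := by linarith
  have hn0 : (0:ℝ) < n := by linarith
  have hn1 : (1:ℝ) ≤ n := by
    have : (0:ℕ) < n := by exact_mod_cast hn0
    exact_mod_cast this
  have hn34 : 1 ≤ (n:ℝ) ^ (3/4:ℝ) := Real.one_le_rpow hn1 (by norm_num)
  have hl2 : (1:ℝ)/2 ≤ Real.log 2 := by
    have := Real.log_two_gt_d9
    linarith
  have hL : Real.log 2 ≤ Real.log (4 * n / r) := by
    apply Real.log_le_log (by norm_num)
    rw [le_div_iff₀ hr0]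
    linarith
  have hth : thin n r ≤ 4 * (n:ℝ) ^ (3/4:ℝ) * r := by
    unfold thin
    apply max_le
    · nlinarith
    · have e1 : r ^ (7/4:ℝ) ≤ (2 * n) ^ (3/4:ℝ) * r := by
        rw [show (7/4:ℝ) = 3/4 + 1 by norm_num, Real.rpow_add hr0, Real.rpow_one]
        apply mul_le_mul_of_nonneg_right _ hr0.le
        exact Real.rpow_le_rpow hr0.le g1 (by norm_num)
      have e2 : (Real.log (4 * n / r)) ^ (-(3/4):ℝ) ≤ 2 ^ (3/4:ℝ) := by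
        calc (Real.log (4 * n / r)) ^ (-(3/4):ℝ) ≤ (1/2 : ℝ) ^ (-(3/4):ℝ) :=
              Real.rpow_le_rpow_of_nonpos (by norm_num) (by linarith) (by norm_num)
          _ = 2 ^ (3/4:ℝ) := by
              rw [one_div, Real.inv_rpow (by norm_num), Real.rpow_neg (by norm_num), inv_inv]
      have e3 : (2:ℝ) ^ (3/4:ℝ) ≤ 2 := by
        calc (2:ℝ) ^ (3/4:ℝ) ≤ 2 ^ (1:ℝ) :=
              Real.rpow_le_rpow_of_exponent_le (by norm_num) (by norm_num)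
          _ = 2 := Real.rpow_one _
      have e4 : (2 * (n:ℝ)) ^ (3/4:ℝ) = 2 ^ (3/4:ℝ) * (n:ℝ) ^ (3/4:ℝ) :=
        Real.mul_rpow (by norm_num) hn0.le
      have e5 : 0 ≤ (Real.log (4 * n / r)) ^ (-(3/4):ℝ) := by
        apply Real.rpow_nonneg
        linarith
      calc r ^ (7/4:ℝ) * (Real.log (4 * n / r)) ^ (-(3/4):ℝ)
          ≤ ((2 * n) ^ (3/4:ℝ) * r) * 2 :=
            mul_le_mul e1 (e2.trans e3) e5 (by positivity)
        _ = (2:ℝ) ^ (3/4:ℝ) * (2 * (n:ℝ) ^ (3/4:ℝ) * r) := by rw [e4]; ring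
        _ ≤ 2 * (2 * (n:ℝ) ^ (3/4:ℝ) * r) := mul_le_mul_of_nonneg_right e3 (by positivity)
        _ = _ := by ring
  calc thin n r ≤ 4 * (n:ℝ) ^ (3/4:ℝ) * r := hth
    _ ≤ 4 * (n:ℝ) ^ (3/4:ℝ) * (28 * (Plain.perimeter F v : ℝ)) :=
        mul_le_mul_of_nonneg_left g2 (by positivity)
    _ = _ := by ring

end Pool.Agent.X135.TC
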