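import Pool.Agent.X135.TC.Loc

/-!
The thinnest clusters: all clusters of the box at the same time.
-/

set_option autoImplicit false

namespace Pool.Agent.X135.TC

open H974 Finset H342P H984P Pool.Agent.Y244.PC Pool.Agent.X135.PL

/-- The typical smallest perimeter of a cluster of diameter `r` in the box `Λ_n`: the maximum of
`r` and `r ^ (7/4) * (log (4 n / r)) ^ (-3/4)`. -/
noncomputable def thin (n : ℕ) (r : ℝ) : ℝ :=
  max r (r ^ (7/4:ℝ) * (Real.log (4 * n / r)) ^ (-(3/4):ℝ))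

/-- a cluster with an edge: diameter against the size of the box and the perimeter -/
theorem diam_facts {n : ℕ} {F : Finset Plain.Edge} (hF : F ⊆ Plain.edges n) {v : ℤ × ℤ} {r : ℝ}
    (hr : 1 ≤ r) (h : DiamGe F v r) : r ≤ 2 * n ∧ r ≤ 28 * (Plain.perimeter F v : ℝ) := by
  obtain ⟨a, ha, b, hb, hab⟩ := h
  rw [Plain.mem_cluster] at ha hb
  have hne : a ≠ b := by
    rintro rfl
    have : (Plain.sqDist a a : ℝ) = 0 := by unfold Plain.sqDist; simp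
    rw [this, Real.sqrt_zero] at hab
    linarith
  have hF' : F ⊆ RE 0 n 0 n := by rw [← Plain.edges_eq]; exact hF
  have hba := pb_box hF' (ha.symm.trans hb) hne
  have hbb := pb_box hF' (hb.symm.trans ha) hne.symm
  have hq : (Plain.sqDist a b : ℝ) = (dsq a b : ℝ) := rfl
  rw [hq] at hab
  have hp := per_pos hF' ha hb hne
  constructor
  · refine hab.trans ?_
    rw [Real.sqrt_le_left (by positivity)]
    unfold inR at hba hbb
    have e1 : (a.1 - b.1) ^ 2 ≤ (n:ℤ) ^ 2 := by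
      apply sq_le_sq'
      · omega
      · omega
    have e2 : (a.2 - b.2) ^ 2 ≤ (n:ℤ) ^ 2 := by
      apply sq_le_sq'
      · omega
      · omega
    have e3 : dsq a b ≤ 2 * (n:ℤ) ^ 2 := by unfold dsq; linarith
    have e4 : (dsq a b : ℝ) ≤ 2 * (n:ℝ) ^ 2 := by exact_mod_cast e3
    have e5 : (0:ℝ) ≤ (n:ℝ) ^ 2 := by positivity
    linarith [show (2 * (n:ℝ)) ^ 2 = 4 * (n:ℝ) ^ 2 by ring]
  · have hp1 : (1:ℝ) ≤ (per n (↑F : Set Edg) v : ℝ) := by exact_mod_cast hp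
    have h1 := det_diam hF' hp1 ha hb le_rfl
    refine hab.trans ?_
    rw [Plain.perimeter_eq hF, Real.sqrt_le_left (by positivity)]
    exact h1

/-- one block of scales -/
theorem block_le {n i : ℕ} (hn : 1 ≤ n) {θ r : ℝ} (hθ : 0 < θ) (hr0 : 0 < r)
    (hr : r ≤ 2 * n / 2 ^ i) :
    θ * (r ^ (7/4:ℝ) * (Real.log (4 * n / r)) ^ (-(3/4):ℝ)) ≤
      (n:ℝ) ^ (7/4:ℝ) / (θ⁻¹ * 2 ^ (-(7/4):ℝ) * ((2:ℝ) ^ i) ^ (7/4:ℝ) *
        (((i:ℝ) + 1) * Real.log 2) ^ (3/4:ℝ)) := by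
  have hn0 : (0:ℝ) < n := by exact_mod_cast hn
  have hl2 : 0 < Real.log 2 := Real.log_pos (by norm_num)
  have hL : ((i:ℝ) + 1) * Real.log 2 ≤ Real.log (4 * n / r) := by
    have h1 : ((i:ℝ) + 1) * Real.log 2 = Real.log (2 ^ (i + 1)) := by
      rw [Real.log_pow]; push_cast; ring
    rw [h1]
    apply Real.log_le_log (by positivity)
    rw [le_div_iff₀ hr0]
    rw [le_div_iff₀ (by positivity)] at hr
    calc (2:ℝ) ^ (i + 1) * r = 2 * (r * 2 ^ i) := by ring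
      _ ≤ 2 * (2 * n) := by linarith
      _ = 4 * n := by ring
  have hL0 : 0 < ((i:ℝ) + 1) * Real.log 2 := by positivity
  have h1 : (Real.log (4 * n / r)) ^ (-(3/4):ℝ) ≤ (((i:ℝ) + 1) * Real.log 2) ^ (-(3/4):ℝ) :=
    Real.rpow_le_rpow_of_nonpos hL0 hL (by norm_num)
  have h2 : r ^ (7/4:ℝ) ≤ (2 * n / 2 ^ i) ^ (7/4:ℝ) := Real.rpow_le_rpow hr0.le hr (by norm_num)
  have h3 : θ * (r ^ (7/4:ℝ) * (Real.log (4 * n / r)) ^ (-(3/4):ℝ)) ≤
      θ * ((2 * n / 2 ^ i) ^ (7/4:ℝ) * (((i:ℝ) + 1) * Real.log 2) ^ (-(3/4):ℝ)) := by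
    apply mul_le_mul_of_nonneg_left _ hθ.le
    exact mul_le_mul h2 h1 (Real.rpow_nonneg (hL0.le.trans hL) _) (by positivity)
  refine h3.trans (le_of_eq ?_)
  rw [Real.div_rpow (by positivity) (by positivity), Real.mul_rpow (by norm_num) hn0.le,
    Real.rpow_neg hL0.le, Real.rpow_neg (by norm_num : (0:ℝ) ≤ 2)]
  have e1 : 0 < (2:ℝ) ^ (7/4:ℝ) := by positivity
  have e2 : 0 < ((2:ℝ) ^ i) ^ (7/4:ℝ) := by positivity
  have e3 : 0 < (((i:ℝ) + 1) * Real.log 2) ^ (3/4:ℝ) := by positivity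
  field_simp

/-- the exponent of one block -/
theorem block_exp {i : ℕ} {θ : ℝ} (hθ : 0 < θ) :
    (θ⁻¹ * 2 ^ (-(7/4):ℝ) * ((2:ℝ) ^ i) ^ (7/4:ℝ) *
        (((i:ℝ) + 1) * Real.log 2) ^ (3/4:ℝ)) ^ (4/3:ℝ) * (((2:ℝ) ^ i)⁻¹) ^ (7/3:ℝ) =
      2 ^ (-(7/3):ℝ) * Real.log 2 * θ ^ (-(4/3):ℝ) * ((i:ℝ) + 1) := by
  have hl2 : 0 < Real.log 2 := Real.log_pos (by norm_num)
  have hi : (0:ℝ) < (i:ℝ) + 1 := by positivity
  rw [Real.mul_rpow (by positivity) (by positivity), Real.mul_rpow (by positivity) (by positivity),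
    Real.mul_rpow (by positivity) (by positivity), ← Real.rpow_mul (by positivity),
    ← Real.rpow_mul (by positivity), ← Real.rpow_mul (by positivity),
    Real.inv_rpow hθ.le, ← Real.rpow_neg hθ.le, Real.inv_rpow (by positivity)]
  norm_num
  have e2 : 0 < ((2:ℝ) ^ i) ^ (7/3:ℝ) := by positivity
  field_simp

theorem all_low : ∃ c C : ℝ, 0 < c ∧ 0 < C ∧ ∀ (n : ℕ) (θ : ℝ), 1 ≤ n → 0 < θ →
    Plain.prob n (fun F => ∃ v, ∃ r : ℝ, 1 ≤ r ∧ DiamGe F v r ∧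
      (Plain.perimeter F v : ℝ) < θ * thin n r) ≤ C * Real.exp (-(c * θ ^ (-(4/3):ℝ))) := by
  obtain ⟨c0, C0, hc0, hC0, h0⟩ := plain_thin
  have hl2 : 0 < Real.log 2 := Real.log_pos (by norm_num)
  obtain ⟨c1, hc1⟩ : ∃ c1 : ℝ, c1 = c0 * (2 ^ (-(7/3):ℝ) * Real.log 2) := ⟨_, rfl⟩
  have hc10 : 0 < c1 := by rw [hc1]; positivity
  obtain ⟨θ0, hθ0⟩ : ∃ θ0 : ℝ, θ0 = min (1/28) ((c1 / 4) ^ (3/4:ℝ)) := ⟨_, rfl⟩
  have hθ00 : 0 < θ0 := by rw [hθ0]; exact lt_min (by norm_num) (by positivity)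
  refine ⟨c1, 2 * C0 + Real.exp (c1 * θ0 ^ (-(4/3):ℝ)), hc10, by positivity, ?_⟩
  intro n θ hn hθ
  have hn0 : (0:ℝ) < n := by exact_mod_cast hn
  by_cases hcase : θ0 < θ
  · have h1 : Plain.prob n (fun F => ∃ v, ∃ r : ℝ, 1 ≤ r ∧ DiamGe F v r ∧
        (Plain.perimeter F v : ℝ) < θ * thin n r) ≤ 1 := by
      rw [Plain.prob_eq]
      exact Pr_le_one hok _ _
    refine h1.trans ?_
    have h2 : θ ^ (-(4/3):ℝ) ≤ θ0 ^ (-(4/3):ℝ) :=
      Real.rpow_le_rpow_of_nonpos hθ00 hcase.le (by norm_num)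
    have h3 : Real.exp (c1 * θ0 ^ (-(4/3):ℝ)) * Real.exp (-(c1 * θ ^ (-(4/3):ℝ))) =
        Real.exp (c1 * (θ0 ^ (-(4/3):ℝ) - θ ^ (-(4/3):ℝ))) := by
      rw [← Real.exp_add]; congr 1; ring
    have h4 : 1 ≤ Real.exp (c1 * (θ0 ^ (-(4/3):ℝ) - θ ^ (-(4/3):ℝ))) :=
      Real.one_le_exp (mul_nonneg hc10.le (by linarith))
    have h5 : 0 ≤ 2 * C0 * Real.exp (-(c1 * θ ^ (-(4/3):ℝ))) := by positivity
    rw [add_mul, h3]
    linarith
  push Not at hcase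
  have hθ28 : θ ≤ 1/28 := hcase.trans (by rw [hθ0]; exact min_le_left _ _)
  obtain ⟨s, hs⟩ : ∃ s : ℝ, s = c1 * θ ^ (-(4/3):ℝ) := ⟨_, rfl⟩
  have hs4 : 4 ≤ s := by
    have h1 : θ ≤ (c1 / 4) ^ (3/4:ℝ) := hcase.trans (by rw [hθ0]; exact min_le_right _ _)
    have h2 : ((c1 / 4) ^ (3/4:ℝ)) ^ (-(4/3):ℝ) ≤ θ ^ (-(4/3):ℝ) :=
      Real.rpow_le_rpow_of_nonpos hθ h1 (by norm_num)
    rw [← Real.rpow_mul (by positivity)] at h2
    norm_num at h2
    rw [Real.rpow_neg_one, inv_div] at h2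
    rw [hs]
    calc (4:ℝ) = c1 * (4 / c1) := by field_simp
      _ ≤ c1 * θ ^ (-(4/3):ℝ) := mul_le_mul_of_nonneg_left h2 hc10.le
  -- the blocks
  obtain ⟨x, hx⟩ : ∃ x : ℕ → ℝ, x = fun i : ℕ => θ⁻¹ * 2 ^ (-(7/4):ℝ) * ((2:ℝ) ^ i) ^ (7/4:ℝ) *
        (((i:ℝ) + 1) * Real.log 2) ^ (3/4:ℝ) := ⟨_, rfl⟩
  have hx0 : ∀ i, 0 < x i := fun i => by rw [hx]; positivity
  obtain ⟨A, hA⟩ : ∃ A : ℕ → Finset Plain.Edge → Prop, A = fun i F => ∃ v,
    DiamGe F v (((2:ℝ) ^ i)⁻¹ * n) ∧ (Plain.perimeter F v : ℝ) ≤ (n:ℝ) ^ (7/4:ℝ) / x i := ⟨_, rfl⟩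
  have hAp : ∀ i, Plain.prob n (A i) ≤ C0 * Real.exp (-s) * (1/2) ^ i := by
    intro i
    have h1 := h0 n (x i) ((2:ℝ) ^ i)⁻¹ hn (hx0 i) (by positivity)
    rw [hA]
    refine h1.trans ?_
    have h2 : c0 * (x i ^ (4/3:ℝ) * (((2:ℝ) ^ i)⁻¹) ^ (7/3:ℝ)) = s * ((i:ℝ) + 1) := by
      rw [hx]
      simp only
      rw [block_exp hθ, hs, hc1]
      ring
    rw [h2]
    have h3 : 1 / (((2:ℝ) ^ i)⁻¹) ^ 2 = 4 ^ i := by
      rw [inv_pow, one_div, inv_inv, ← pow_mul, mul_comm i 2, pow_mul]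
      norm_num
    rw [h3]
    have h4 : Real.exp (-(s * ((i:ℝ) + 1))) = Real.exp (-s) * Real.exp (-s) ^ i := by
      rw [← Real.exp_nat_mul, ← Real.exp_add]
      congr 1
      ring
    rw [h4]
    have h5 : 4 * Real.exp (-s) ≤ 1/2 := by
      have h6 : Real.exp (-s) ≤ Real.exp (-4) := Real.exp_le_exp.mpr (by linarith)
      have h7 : Real.exp (-4) ≤ 1/8 := by
        rw [Real.exp_neg, one_div]
        apply inv_anti₀ (by norm_num)
        have := Real.add_one_le_exp (2:ℝ)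
        have h8 : Real.exp 4 = Real.exp 2 * Real.exp 2 := by rw [← Real.exp_add]; norm_num
        rw [h8]
        nlinarith
      linarith
    have h6 : (4 * Real.exp (-s)) ^ i ≤ (1/2) ^ i :=
      pow_le_pow_left₀ (by positivity) h5 i
    calc C0 * 4 ^ i * (Real.exp (-s) * Real.exp (-s) ^ i)
        = C0 * Real.exp (-s) * (4 * Real.exp (-s)) ^ i := by rw [mul_pow]; ring
      _ ≤ C0 * Real.exp (-s) * (1/2) ^ i := mul_le_mul_of_nonneg_left h6 (by positivity)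
  have hmain : Plain.prob n (fun F => ∃ v, ∃ r : ℝ, 1 ≤ r ∧ DiamGe F v r ∧
      (Plain.perimeter F v : ℝ) < θ * thin n r) ≤
      Pr (fun _ => (1/2:ℝ)) (RE 0 n 0 n) (fun F => ∃ i ∈ Finset.range (2 * n), A i F) := by
    refine Plain.prob_le_of_pr fun F hF => ?_
    rintro ⟨v, r, hr1, hD, hp⟩
    obtain ⟨g1, g2⟩ := diam_facts hF hr1 hD
    have hr0 : 0 < r := by linarith
    have g3 : (Plain.perimeter F v : ℝ) <
        θ * (r ^ (7/4:ℝ) * (Real.log (4 * n / r)) ^ (-(3/4):ℝ)) := by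
      unfold thin at hp
      rcases max_choice r (r ^ (7/4:ℝ) * (Real.log (4 * n / r)) ^ (-(3/4):ℝ)) with h | h
      · rw [h] at hp
        exfalso
        have : θ * r ≤ 1/28 * r := mul_le_mul_of_nonneg_right hθ28 hr0.le
        linarith
      · rwa [h] at hp
    obtain ⟨i, hi1, hi2⟩ := exists_nat_pow_near (x := 2 * n / r) (y := (2:ℝ))
      (by rw [le_div_iff₀ hr0]; linarith) (by norm_num)
    have hr2 : r ≤ 2 * n / 2 ^ i := by
      rw [le_div_iff₀ (by positivity)]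
      rw [le_div_iff₀ hr0] at hi1
      linarith
    refine ⟨i, ?_, ?_⟩
    · rw [Finset.mem_range]
      have h1 : (2:ℝ) ^ i ≤ 2 * n := by
        refine hi1.trans (div_le_self (by positivity) hr1)
      have h2 : (2:ℕ) ^ i ≤ 2 * n := by exact_mod_cast h1
      exact lt_of_lt_of_le (Nat.lt_two_pow_self) h2
    · rw [hA]
      refine ⟨v, ?_, ?_⟩
      · obtain ⟨a, ha, b, hb, hab⟩ := hD
        refine ⟨a, ha, b, hb, le_trans ?_ hab⟩
        rw [div_lt_iff₀ hr0, pow_succ] at hi2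
        rw [inv_mul_le_iff₀ (by positivity)]
        linarith
      · rw [hx]
        exact g3.le.trans (block_le hn hθ hr0 hr2)
  refine hmain.trans ?_
  refine (Pr_exists_le hok _ _ _).trans ?_
  have hsum : ∑ i ∈ Finset.range (2 * n), Pr (fun _ => (1/2:ℝ)) (RE 0 n 0 n) (A i) ≤
      ∑ i ∈ Finset.range (2 * n), C0 * Real.exp (-s) * (1/2) ^ i := by
    refine Finset.sum_le_sum fun i _ => ?_
    rw [← Plain.prob_eq]
    exact hAp i
  refine hsum.trans ?_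
  rw [← Finset.mul_sum]
  have hgeo : ∑ i ∈ Finset.range (2 * n), ((1:ℝ)/2) ^ i ≤ 2 := by
    have := sum_geometric_two_le (2 * n)
    exact this
  have he := Real.exp_pos (-s)
  have he2 := Real.exp_pos (c1 * θ0 ^ (-(4/3):ℝ))
  rw [← hs]
  calc C0 * Real.exp (-s) * ∑ i ∈ Finset.range (2 * n), ((1:ℝ)/2) ^ i
      ≤ C0 * Real.exp (-s) * 2 := mul_le_mul_of_nonneg_left hgeo (by positivity)
    _ = 2 * C0 * Real.exp (-s) := by ring
    _ ≤ _ := mul_le_mul_of_nonneg_right (by linarith) he.le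

end Pool.Agent.X135.TC
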