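import Pool.Agent.X135.TC.Tube2
import Pool.Agent.X135.TC.Low

/-!
The thinnest clusters: they exist at every scale.
-/

set_option autoImplicit false

namespace Pool.Agent.X135.TC

open H974 Finset H342P H984P Pool.Agent.Y244.PC Pool.Agent.X135.PL

/-- Some cluster stays strictly inside `Λ_N`, has a diameter between `D` and `4 D` and a perimeter
of at most `p`. -/
def Th (N : ℕ) (p D : ℝ) (F : Finset Edg) : Prop :=
  ∃ v, (∀ w, Reach (↑F : Set Edg) v w → inR 1 (N - 1) 1 (N - 1) w) ∧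
    (Plain.perimeter F v : ℝ) ≤ p ∧
    (∀ a b : Vtx, Reach (↑F : Set Edg) v a → Reach (↑F : Set Edg) v b →
      (dsq a b : ℝ) ≤ (4 * D) ^ 2) ∧
    ∃ a b : Vtx, Reach (↑F : Set Edg) v a ∧ Reach (↑F : Set Edg) v b ∧ D ^ 2 ≤ (dsq a b : ℝ)

theorem th_low {C0 : ℝ} (hC0 : 0 < C0) (hU : TwoUp C0 (1/4)) : ∃ c C : ℝ, 0 < c ∧ c ≤ 1 ∧ 0 < C ∧
    ∀ (N : ℕ) (p D : ℝ), 1 ≤ c * D → D ≤ c * N → D ≤ c * p →
      Real.exp (-(C * (((N:ℝ) / D) ^ 2 + D ^ (7/3:ℝ) * p ^ (-(4/3):ℝ)))) ≤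
        Pr (fun _ => (1/2:ℝ)) (RE 0 N 0 N) (Th N p D) := by
  obtain ⟨c, C, hc, hc1, hC, h⟩ := tube_in hC0 hU
  refine ⟨c, C, hc, hc1, hC, ?_⟩
  intro N p D hD hDN hDp
  have hD0 : 0 < D := by
    by_contra hcon
    push Not at hcon
    have : c * D ≤ 0 := mul_nonpos_of_nonneg_of_nonpos hc.le hcon
    linarith
  have hN0 : (0:ℝ) < N := by
    by_contra hcon
    push Not at hcon
    have : c * (N:ℝ) ≤ 0 := mul_nonpos_of_nonneg_of_nonpos hc.le hcon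
    linarith
  have hp0 : 0 < p := by
    by_contra hcon
    push Not at hcon
    have : c * p ≤ 0 := mul_nonpos_of_nonneg_of_nonpos hc.le hcon
    linarith
  have e1 : D / N * N = D := by field_simp
  have e2 : (N:ℝ) ^ (7/4:ℝ) / ((N:ℝ) ^ (7/4:ℝ) / p) = p := by
    have : 0 < (N:ℝ) ^ (7/4:ℝ) := by positivity
    field_simp
  have e3 : (N:ℝ) ^ (7/4:ℝ) / p * (D / N) ≤ c * (N:ℝ) ^ (3/4:ℝ) := by
    have h1 : (N:ℝ) ^ (7/4:ℝ) = (N:ℝ) ^ (3/4:ℝ) * N := by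
      rw [show (7/4:ℝ) = 3/4 + 1 by norm_num, Real.rpow_add hN0, Real.rpow_one]
    rw [h1]
    have h2 : (N:ℝ) ^ (3/4:ℝ) * N / p * (D / N) = (N:ℝ) ^ (3/4:ℝ) * (D / p) := by
      field_simp
    rw [h2, mul_comm c]
    apply mul_le_mul_of_nonneg_left _ (by positivity)
    rw [div_le_iff₀ hp0]
    exact hDp
  have hmain := h N ((N:ℝ) ^ (7/4:ℝ) / p) (D / N) (by positivity) (by positivity)
    (by rw [div_le_iff₀ hN0]; exact hDN) (by rw [e1]; exact hD) e3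
  rw [e1, e2] at hmain
  have e4 : 1 / (D / (N:ℝ)) ^ 2 = ((N:ℝ) / D) ^ 2 := by
    rw [div_pow, div_pow, one_div_div]
  have e5 : ((N:ℝ) ^ (7/4:ℝ) / p) ^ (4/3:ℝ) * (D / N) ^ (7/3:ℝ) =
      D ^ (7/3:ℝ) * p ^ (-(4/3):ℝ) := by
    rw [Real.div_rpow (by positivity) hp0.le, Real.div_rpow hD0.le hN0.le,
      ← Real.rpow_mul hN0.le, Real.rpow_neg hp0.le]
    norm_num
    have h1 : 0 < (N:ℝ) ^ (7/3:ℝ) := by positivity
    field_simp
  rw [e4, e5] at hmain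
  refine hmain.trans (Pr_mono hok ?_)
  intro F hF hall
  obtain ⟨v, hv⟩ := Plain.exists_largest N F
  obtain ⟨g1, g2, g3, g4⟩ := hall v (Plain.isMax_of_largest hv)
  refine ⟨v, g2, ?_, g3, g4⟩
  rw [Plain.perimeter_eq (n := N) (by rw [Plain.edges_eq]; exact hF)]
  exact g1

/-- the event `Th` in a translated box -/
def ThAt (s t N : ℕ) (p D : ℝ) (F : Finset Edg) : Prop :=
  Th N p D (sh ((s:ℤ), (t:ℤ)) (F ∩ RE s (s + N) t (t + N)))

theorem thAt_local {s t N : ℕ} {p D : ℝ} (F : Finset Edg) :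
    ThAt s t N p D F ↔ ThAt s t N p D (F ∩ RE s (s + N) t (t + N)) := by
  unfold ThAt
  rw [Finset.inter_assoc, Finset.inter_self]

theorem sh_RE (s t N : ℕ) : sh ((s:ℤ), (t:ℤ)) (RE s (s + N) t (t + N)) = RE 0 N 0 N := by
  unfold sh
  rw [trl_RE]
  congr 1 <;> ring

theorem pr_thAt {s t N : ℕ} {p D : ℝ} {S : Finset Edg} (hS : RE s (s + N) t (t + N) ⊆ S) :
    Pr (fun _ => (1/2:ℝ)) S (ThAt s t N p D) =
      Pr (fun _ => (1/2:ℝ)) (RE 0 N 0 N) (Th N p D) := by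
  have h1 : Pr (fun _ => (1/2:ℝ)) S (ThAt s t N p D) =
      Pr (fun _ => (1/2:ℝ)) (RE s (s + N) t (t + N)) (ThAt s t N p D) :=
    Pr_local hS (A := ThAt s t N p D) (fun F _ => thAt_local F)
  have h2 : Pr (fun _ => (1/2:ℝ)) (RE s (s + N) t (t + N)) (ThAt s t N p D) =
      Pr (fun _ => (1/2:ℝ)) (RE s (s + N) t (t + N))
        (fun F => Th N p D (sh ((s:ℤ), (t:ℤ)) F)) := by
    apply Pr_congr
    intro F hF
    unfold ThAt
    rw [Finset.inter_eq_left.mpr hF]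
  have h3 : Pr (fun _ => (1/2:ℝ)) (RE s (s + N) t (t + N))
        (fun F => Th N p D (sh ((s:ℤ), (t:ℤ)) F)) =
      Pr (fun _ => (1/2:ℝ)) (sh ((s:ℤ), (t:ℤ)) (RE s (s + N) t (t + N))) (Th N p D) :=
    (LSym.pr (trl (-(s:ℤ)) (-(t:ℤ))) (1 / 2) _ _).symm
  rw [h1, h2, h3, sh_RE]

/-- a cluster of the small box is a cluster of the large box -/
theorem thAt_cluster {s t N : ℕ} {p D : ℝ} (hD : 0 ≤ D) {F : Finset Edg}
    (h : ThAt s t N p D F) :
    ∃ v, DiamGe F v D ∧ DiamLe F v (4 * D) ∧ (Plain.perimeter F v : ℝ) ≤ p := by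
  obtain ⟨v, h1, h2, h3, a, b, ha, hb, hab⟩ := h
  obtain ⟨g1, g2⟩ := perimeter_local h1
  refine ⟨v + ((s:ℤ), (t:ℤ)), ?_, ?_, by rw [g1]; exact h2⟩
  · refine ⟨a + ((s:ℤ), (t:ℤ)), ?_, b + ((s:ℤ), (t:ℤ)), ?_, ?_⟩
    · rw [Plain.mem_cluster, g2, add_sub_cancel_right]; exact ha
    · rw [Plain.mem_cluster, g2, add_sub_cancel_right]; exact hb
    · apply Real.le_sqrt_of_sq_le
      refine hab.trans (le_of_eq ?_)
      unfold dsq Plain.sqDist
      simp only [Prod.fst_add, Prod.snd_add]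
      congr 1
      ring
  · intro a' ha' b' hb'
    rw [Plain.mem_cluster, g2] at ha' hb'
    have h5 := h3 _ _ ha' hb'
    rw [Real.sqrt_le_left (by positivity)]
    refine le_trans (le_of_eq ?_) h5
    unfold dsq Plain.sqDist
    simp only [Prod.fst_sub, Prod.snd_sub]
    congr 1
    ring

/-- many disjoint boxes -/
theorem many {n N M : ℕ} (hM : M * (N + 1) ≤ n) {p D q : ℝ} (hD : 0 ≤ D)
    (hq : q ≤ Pr (fun _ => (1/2:ℝ)) (RE 0 N 0 N) (Th N p D)) :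
    Plain.prob n (fun F => ¬ ∃ v, DiamGe F v D ∧ DiamLe F v (4 * D) ∧
      (Plain.perimeter F v : ℝ) ≤ p) ≤ Real.exp (-(q * M ^ 2)) := by
  classical
  obtain ⟨I, hI⟩ : ∃ I : Finset (ℕ × ℕ), I = Finset.range M ×ˢ Finset.range M := ⟨_, rfl⟩
  obtain ⟨S, hS⟩ : ∃ S : ℕ × ℕ → Finset Edg, S = fun i =>
    RE ((i.1 * (N + 1) : ℕ) : ℤ) ((i.1 * (N + 1) : ℕ) + N) ((i.2 * (N + 1) : ℕ) : ℤ)
      ((i.2 * (N + 1) : ℕ) + N) := ⟨_, rfl⟩
  have hbd : ∀ i < M, i * (N + 1) + N ≤ n := by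
    intro i hi
    have h1 : (i + 1) * (N + 1) ≤ M * (N + 1) := Nat.mul_le_mul_right _ hi
    have h2 : (i + 1) * (N + 1) = i * (N + 1) + N + 1 := by ring
    omega
  have hSU : ∀ i ∈ I, S i ⊆ RE 0 n 0 n := by
    intro i hi
    rw [hI, Finset.mem_product, Finset.mem_range, Finset.mem_range] at hi
    have h1 := hbd i.1 hi.1
    have h2 := hbd i.2 hi.2
    rw [hS]
    apply RE_subset
    · positivity
    · exact_mod_cast h1
    · positivity
    · exact_mod_cast h2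
  have hsep : ∀ i j : ℕ, i < j → i * (N + 1) + N < j * (N + 1) := by
    intro i j hij
    have h1 : (i + 1) * (N + 1) ≤ j * (N + 1) := Nat.mul_le_mul_right _ hij
    have h2 : (i + 1) * (N + 1) = i * (N + 1) + N + 1 := by ring
    omega
  have hdis : ∀ i ∈ I, ∀ j ∈ I, i ≠ j → Disjoint (S i) (S j) := by
    intro i _ j _ hij
    rw [Finset.disjoint_left]
    intro e he hf
    rw [hS] at he hf
    simp only at he hf
    have hne : i.1 ≠ j.1 ∨ i.2 ≠ j.2 := by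
      by_contra hcon
      push Not at hcon
      exact hij (Prod.ext hcon.1 hcon.2)
    obtain ⟨x, y, b⟩ := e
    have hx : ((i.1 * (N + 1) : ℕ) : ℤ) ≤ x ∧ x ≤ (i.1 * (N + 1) : ℕ) + N ∧
        ((i.2 * (N + 1) : ℕ) : ℤ) ≤ y ∧ y ≤ (i.2 * (N + 1) : ℕ) + N := by
      cases b
      · rw [mem_RE_false] at he; omega
      · rw [mem_RE_true] at he; omega
    have hy : ((j.1 * (N + 1) : ℕ) : ℤ) ≤ x ∧ x ≤ (j.1 * (N + 1) : ℕ) + N ∧
        ((j.2 * (N + 1) : ℕ) : ℤ) ≤ y ∧ y ≤ (j.2 * (N + 1) : ℕ) + N := by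
      cases b
      · rw [mem_RE_false] at hf; omega
      · rw [mem_RE_true] at hf; omega
    obtain ⟨x1, x2, x3, x4⟩ := hx
    obtain ⟨y1, y2, y3, y4⟩ := hy
    rcases hne with h | h
    · rcases Nat.lt_or_gt_of_ne h with h' | h'
      · have h3 : ((i.1 * (N + 1) + N : ℕ) : ℤ) < ((j.1 * (N + 1) : ℕ) : ℤ) := by
          exact_mod_cast hsep _ _ h'
        push_cast at h3 x2 y1
        linarith
      · have h3 : ((j.1 * (N + 1) + N : ℕ) : ℤ) < ((i.1 * (N + 1) : ℕ) : ℤ) := by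
          exact_mod_cast hsep _ _ h'
        push_cast at h3 x1 y2
        linarith
    · rcases Nat.lt_or_gt_of_ne h with h' | h'
      · have h3 : ((i.2 * (N + 1) + N : ℕ) : ℤ) < ((j.2 * (N + 1) : ℕ) : ℤ) := by
          exact_mod_cast hsep _ _ h'
        push_cast at h3 x4 y3
        linarith
      · have h3 : ((j.2 * (N + 1) + N : ℕ) : ℤ) < ((i.2 * (N + 1) : ℕ) : ℤ) := by
          exact_mod_cast hsep _ _ h'
        push_cast at h3 x3 y4
        linarith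
  have hle : Plain.prob n (fun F => ¬ ∃ v, DiamGe F v D ∧ DiamLe F v (4 * D) ∧
      (Plain.perimeter F v : ℝ) ≤ p) ≤ Pr (fun _ => (1/2:ℝ)) (RE 0 n 0 n)
      (fun F => ∀ i ∈ I, ¬ ThAt (i.1 * (N + 1)) (i.2 * (N + 1)) N p D F) := by
    refine Plain.prob_le_of_pr fun F _ => ?_
    intro hno i _ hi
    exact hno (thAt_cluster hD hi)
  refine hle.trans ?_
  have hloc : ∀ i ∈ I, ∀ F, (¬ ThAt (i.1 * (N + 1)) (i.2 * (N + 1)) N p D F ↔
      ¬ ThAt (i.1 * (N + 1)) (i.2 * (N + 1)) N p D (F ∩ S i)) := by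
    intro i _ F
    rw [hS]
    exact not_congr (thAt_local F)
  rw [indep_prod (p := fun _ => (1/2:ℝ)) I
    (fun (i : ℕ × ℕ) F => ¬ ThAt (i.1 * (N + 1)) (i.2 * (N + 1)) N p D F) S hSU hdis hloc]
  have hone : ∀ i ∈ I, Pr (fun _ => (1/2:ℝ)) (RE 0 n 0 n)
      (fun F => ¬ ThAt (i.1 * (N + 1)) (i.2 * (N + 1)) N p D F) ≤ Real.exp (-q) := by
    intro i hi
    have h1 := hSU i hi
    rw [hS] at h1
    rw [Pr_not, pr_thAt h1]
    have := Real.add_one_le_exp (-q)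
    linarith
  refine (Finset.prod_le_prod (fun i _ => Pr_nonneg hok _ _) hone).trans (le_of_eq ?_)
  rw [Finset.prod_const, ← Real.exp_nat_mul, hI, Finset.card_product, Finset.card_range]
  congr 1
  push_cast
  ring

end Pool.Agent.X135.TC
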