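import Pool.Agent.X135.TC.Low
import Pool.Agent.TH494.PT.UpC

/-!
The fattest clusters: all clusters of the box at the same time.
-/

set_option autoImplicit false

namespace Pool.Agent.X135.TC

open H974 Finset H342P H984P H984N TH992.T TH494.PT Pool.Agent.X135.PL

/-- the perimeter of a cluster in a small box is at most the number of two-arm pairs there -/
theorem per_le_box {n m s : ℕ} {b0 c0 : ℤ} {F : Finset Edg} (hm1 : 1 ≤ m)
    {v a b : Vtx} (ha : Reach (↑F : Set Edg) v a) (hb : Reach (↑F : Set Edg) v b)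
    (hab : 8 * (m:ℤ) ^ 2 ≤ dsq a b) (hbox : ∀ w, Reach (↑F : Set Edg) v w → w ∈ Bq b0 c0 s) :
    (per n (↑F : Set Edg) v : ℝ) ≤ 2 * ∑ w ∈ Bq b0 c0 s, xs (TH494.PT.Dn n) m w F := by
  classical
  have hfar : ∀ (u : Vtx) (k : ℤ), k ≤ m → ∃ w, Reach (↑F : Set Edg) v w ∧ FarF u k w := by
    intro u k hk
    by_contra hcon
    push Not at hcon
    have h1 := hcon a ha
    have h2 := hcon b hb
    have h3 := dsq_lt h1 h2
    have h4 : 0 < k := by
      unfold FarF at h1
      rw [not_not] at h1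
      unfold inF at h1
      omega
    nlinarith
  have hx0 : ∀ v, 0 ≤ xs (TH494.PT.Dn n) m v F := by
    intro v
    unfold xs
    refine sum_nonneg fun q _ => ?_
    split_ifs
    · exact ind_nonneg _
    · exact le_refl _
  have h1 : (per n (↑F : Set Edg) v : ℝ) ≤ ∑ e ∈ RE 0 n 0 n,
      (if src e ∈ Bq b0 c0 s then xs (TH494.PT.Dn n) m (src e) F else 0) := by
    unfold per
    push_cast
    apply Finset.sum_le_sum
    intro e he
    by_cases hE : e ∈ EC (↑F : Set Edg) v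
    · rw [if_pos hE, if_pos (hbox _ hE.2)]
      have hk : min (m:ℤ) (bdist n (src e)) ≤ (src e).1 := by
        refine (min_le_right _ _).trans ?_
        unfold bdist
        exact (min_le_left _ _).trans (min_le_left _ _)
      obtain ⟨w, hw1, hw2⟩ := hfar (src e) (min (m:ℤ) (bdist n (src e))) (min_le_left _ _)
      have t1 : (if Outer (↑F : Set Edg) v (dsrc e) then (1:ℝ) else 0) ≤
          ind (Two (src e) (dsrc e) (min (m:ℤ) (bdist n (src e))) (↑F : Set Edg)) := by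
        split_ifs with h2
        · rw [ind_of (two_of_outer hE (inc_dsrc e) h2 hk hw1 hw2)]
        · exact ind_nonneg _
      have t2 : (if Outer (↑F : Set Edg) v (dtgt e) then (1:ℝ) else 0) ≤
          ind (Two (src e) (dtgt e) (min (m:ℤ) (bdist n (src e))) (↑F : Set Edg)) := by
        split_ifs with h2
        · rw [ind_of (two_of_outer hE (inc_dtgt e) h2 hk hw1 hw2)]
        · exact ind_nonneg _
      have t3 : ind (Two (src e) (dsrc e) (min (m:ℤ) (bdist n (src e))) (↑F : Set Edg)) +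
          ind (Two (src e) (dtgt e) (min (m:ℤ) (bdist n (src e))) (↑F : Set Edg)) ≤
          xs (TH494.PT.Dn n) m (src e) F := by
        rw [← TH494.PT.Dn_bd]
        obtain ⟨x, y, t⟩ := e
        cases t
        · rw [mem_RE_false] at he
          have h := xs_term (D := TH494.PT.Dn n) (s := m) (v := (x, y)) (F := F) (by
            unfold TH494.PT.Dn; simp only; omega) (q := Q4.nw) (q' := Q4.ne) (by decide)
          simpa using h
        · rw [mem_RE_true] at he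
          have h := xs_term (D := TH494.PT.Dn n) (s := m) (v := (x, y)) (F := F) (by
            unfold TH494.PT.Dn; simp only; omega) (q := Q4.se) (q' := Q4.ne) (by decide)
          simpa using h
      have t4 : ((if Outer (↑F : Set Edg) v (dsrc e) then (1:ℝ) else 0) +
        (if Outer (↑F : Set Edg) v (dtgt e) then (1:ℝ) else 0)) ≤ xs (TH494.PT.Dn n) m (src e) F := by
        linarith
      exact_mod_cast t4
    · rw [if_neg hE]
      split_ifs
      · exact_mod_cast hx0 _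
      · simp
  refine h1.trans ?_
  have h2 : ∑ e ∈ RE 0 n 0 n, (if src e ∈ Bq b0 c0 s then xs (TH494.PT.Dn n) m (src e) F else 0) ≤
      ∑ e ∈ (Finset.Ico b0 (b0 + s)) ×ˢ ((Finset.Ico c0 (c0 + s)) ×ˢ (Finset.univ : Finset Bool)),
        xs (TH494.PT.Dn n) m (src e) F := by
    rw [← Finset.sum_filter]
    refine sum_le_sum_of_subset_of_nonneg ?_ fun e _ _ => hx0 _
    intro e he
    rw [Finset.mem_filter] at he
    obtain ⟨-, he⟩ := he
    rw [mem_Bq] at he
    rw [mem_product, mem_product, mem_Ico, mem_Ico]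
    exact ⟨he.1, he.2, mem_univ _⟩
  refine h2.trans (le_of_eq ?_)
  rw [sum_product, mul_sum]
  unfold Bq
  rw [sum_product]
  refine sum_congr rfl fun i _ => ?_
  rw [sum_product]
  refine sum_congr rfl fun j _ => ?_
  simp only [Fintype.sum_bool, src_mk]
  ring

/-- the perimeter of a cluster in a small box -/
theorem per_box_max {n s : ℕ} {b0 c0 : ℤ} {F : Finset Edg} {v : Vtx}
    (hbox : ∀ w, Reach (↑F : Set Edg) v w → w ∈ Bq b0 c0 s) :
    (per n (↑F : Set Edg) v : ℝ) ≤ 4 * (s:ℝ) ^ 2 := by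
  classical
  have h1 : per n (↑F : Set Edg) v ≤ ∑ e ∈ RE 0 n 0 n, (if src e ∈ Bq b0 c0 s then 2 else 0) := by
    unfold per
    apply Finset.sum_le_sum
    intro e _
    by_cases hE : e ∈ EC (↑F : Set Edg) v
    · rw [if_pos hE, if_pos (hbox _ hE.2)]
      split_ifs <;> simp
    · rw [if_neg hE]
      exact Nat.zero_le _
  have h2 : ∑ e ∈ RE 0 n 0 n, (if src e ∈ Bq b0 c0 s then 2 else 0) ≤
      ∑ e ∈ (Finset.Ico b0 (b0 + s)) ×ˢ ((Finset.Ico c0 (c0 + s)) ×ˢ (Finset.univ : Finset Bool)),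
        2 := by
    rw [← Finset.sum_filter]
    refine sum_le_sum_of_subset_of_nonneg ?_ fun e _ _ => Nat.zero_le _
    intro e he
    rw [Finset.mem_filter] at he
    obtain ⟨-, he⟩ := he
    rw [mem_Bq] at he
    rw [mem_product, mem_product, mem_Ico, mem_Ico]
    exact ⟨he.1, he.2, mem_univ _⟩
  rw [sum_const, card_product, card_product, Int.card_Ico, Int.card_Ico, card_univ,
    Fintype.card_bool, smul_eq_mul] at h2
  have e1 : (b0 + s - b0).toNat = s := by omega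
  have e2 : (c0 + s - c0).toNat = s := by omega
  rw [e1, e2] at h2
  have h3 := h1.trans h2
  have h4 : (per n (↑F : Set Edg) v : ℝ) ≤ ((s * (s * 2) * 2 : ℕ) : ℝ) := by exact_mod_cast h3
  push_cast at h4
  linarith

/-- the event in one box -/
def FatAt (n : ℕ) (b0 c0 : ℤ) (s : ℕ) (u : ℝ) (F : Finset Edg) : Prop :=
  ∃ v a b : Vtx, Reach (↑F : Set Edg) v a ∧ Reach (↑F : Set Edg) v b ∧
    (s:ℤ) ^ 2 ≤ 800 * dsq a b ∧ (∀ w, Reach (↑F : Set Edg) v w → w ∈ Bq b0 c0 s) ∧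
    2 * u * (s:ℝ) ^ (7/4:ℝ) < (per n (↑F : Set Edg) v : ℝ)

theorem fat_box {C : ℝ} (hC : 0 < C) (hU : TwoUp C (1/4)) : ∃ l : ℝ, 1 ≤ l ∧
    ∀ (n : ℕ) (b0 c0 : ℤ) (s : ℕ) (u : ℝ), 1 ≤ s → 3 * l ≤ u →
      Pr (fun _ => (1/2:ℝ)) (RE 0 n 0 n) (FatAt n b0 c0 s u) ≤
        9 * Real.exp (-((u / l) ^ 8)) := by
  obtain ⟨l, hl1, hlB, h⟩ := tail_sum (a := 1/4)
    (C0 := 4 * (C + 1) * (1 + 8 * (1 + 1 / (1 - 1/4))))
    (by norm_num) (by norm_num) 4 (by positivity)
  have hl0 : 0 < l := by linarith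
  refine ⟨l, hl1, fun n b0 c0 s u hs hu => ?_⟩
  obtain ⟨K, hK1, hKe, hK2, hK3, hK4⟩ := choice (a := 1/4) (by norm_num) (by norm_num) hl1
    (show l ≤ u by linarith)
  have e4 : (1 / (1/4) : ℝ) = ((4 : ℕ) : ℝ) := by norm_num
  have e8 : (2 / (1/4) : ℝ) = ((8 : ℕ) : ℝ) := by norm_num
  rw [e4, Real.rpow_natCast] at hK2 hKe
  rw [e8, Real.rpow_natCast] at hK3
  have hul : 3 ≤ u / l := by rw [le_div_iff₀ hl0]; linarith
  have hu0 : 0 < u := by linarith
  have hK81 : 81 ≤ K := by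
    have h1 : (81 : ℝ) ≤ (u / l) ^ 4 := by
      calc (81 : ℝ) = 3 ^ 4 := by norm_num
        _ ≤ (u / l) ^ 4 := pow_le_pow_left₀ (by norm_num) hul 4
    have h2 : (81 : ℝ) ≤ K := by
      rw [hKe]
      exact h1.trans (Nat.le_ceil _)
    exact_mod_cast h2
  have hs0 : (0 : ℝ) < s := by exact_mod_cast hs
  rcases Nat.lt_or_ge s K with hlt | hge
  · -- the perimeter cannot be so large
    refine le_trans ?_ (show (0:ℝ) ≤ 9 * Real.exp (-((u / l) ^ 8)) by positivity)
    unfold Pr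
    refine Ex_le_of_le hok fun F _ => ?_
    rw [ind_not_of]
    rintro ⟨v, a, b, ha, hb, hab, hbox, hv⟩
    rw [hKe, Nat.lt_ceil] at hlt
    have h1 := per_box_max (n := n) hbox
    have h2 : (s : ℝ) ^ (1/4 : ℝ) < u / l := by
      calc (s : ℝ) ^ (1/4 : ℝ) < ((u / l) ^ 4) ^ (1/4 : ℝ) :=
            Real.rpow_lt_rpow hs0.le hlt (by norm_num)
        _ = u / l := by
          rw [← Real.rpow_natCast, ← Real.rpow_mul (by linarith)]; norm_num
    rw [lt_div_iff₀ hl0] at h2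
    have h3 : (s : ℝ) ^ 2 = (s : ℝ) ^ (1/4 : ℝ) * (s : ℝ) ^ (7/4 : ℝ) := by
      rw [← Real.rpow_add hs0, ← Real.rpow_natCast]; norm_num
    have h4 : 0 < (s : ℝ) ^ (1/4 : ℝ) := Real.rpow_pos_of_pos hs0 _
    have h5 : 0 < (s : ℝ) ^ (7/4 : ℝ) := Real.rpow_pos_of_pos hs0 _
    rw [h3] at h1
    have h6 : 4 * ((s : ℝ) ^ (1/4 : ℝ) * (s : ℝ) ^ (7/4 : ℝ)) ≤ 2 * u * (s : ℝ) ^ (7/4 : ℝ) := by
      have h7 : 2 * (s : ℝ) ^ (1/4 : ℝ) ≤ u := by nlinarith
      nlinarith
    linarith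
  have key := h (fun _ => (1/2:ℝ)) (TH494.PT.Dn n).edges (xs (TH494.PT.Dn n)) (xs_fam hC hU (TH494.PT.Dn n)) s K b0 c0 u
    hK1 hge hK4
  rw [TH494.PT.Dn_edges, show (2 - 1/4 : ℝ) = 7/4 by norm_num] at key
  refine le_trans (Pr_mono hok ?_) (key.trans ?_)
  · rintro F _ ⟨v, a, b, ha, hb, hab, hbox, hv⟩
    obtain ⟨s1, s2, s3, s4⟩ := side hK1 hge
    have h8 : 8 * (((s / K : ℕ) : ℤ)) ^ 2 ≤ dsq a b := by
      have h9 : 81 * (((s / K : ℕ) : ℤ)) ≤ s := by
        have h10 : 81 * (s / K) ≤ K * (s / K) := Nat.mul_le_mul_right _ hK81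
        exact_mod_cast h10.trans s3
      have h11 : (0:ℤ) ≤ (((s / K : ℕ) : ℤ)) := by positivity
      nlinarith
    have h12 := per_le_box (n := n) s1 ha hb h8 hbox
    nlinarith
  · have : Real.exp (-((K:ℝ) * K)) ≤ Real.exp (-((u / l) ^ 8)) :=
      Real.exp_le_exp.mpr (by linarith)
    linarith

end Pool.Agent.X135.TC
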