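import Pool.Agent.X135.TC.Fat

/-!
The fattest clusters: all scales.
-/

set_option autoImplicit false

namespace Pool.Agent.X135.TC

open H974 Finset H342P H984P H984N TH992.T TH494.PT Pool.Agent.X135.PL

/-- The typical largest perimeter of a cluster of diameter `r` in the box `Λ_n`:
`r ^ (7/4) * (log (4 n / r)) ^ (1/8)`. -/
noncomputable def fat (n : ℕ) (r : ℝ) : ℝ := r ^ (7/4:ℝ) * (Real.log (4 * n / r)) ^ (1/8:ℝ)

/-- the event at one scale -/
def FatS (n : ℕ) (D : ℝ) (u : ℝ) (F : Finset Edg) : Prop :=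
  ∃ v a b : Vtx, inR 0 n 0 n v ∧ Reach (↑F : Set Edg) v a ∧ Reach (↑F : Set Edg) v b ∧
    D ^ 2 ≤ 4 * (dsq a b : ℝ) ∧ (∀ w, Reach (↑F : Set Edg) v w → (dsq v w : ℝ) ≤ D ^ 2) ∧
    2 * u * ((3 * ⌈D⌉₊ : ℕ) : ℝ) ^ (7/4:ℝ) < (per n (↑F : Set Edg) v : ℝ)

theorem fat_scale {C : ℝ} (hC : 0 < C) (hU : TwoUp C (1/4)) : ∃ l : ℝ, 1 ≤ l ∧
    ∀ (n : ℕ) (D u : ℝ), 1 ≤ D → D ≤ 2 * n → 3 * l ≤ u →
      Pr (fun _ => (1/2:ℝ)) (RE 0 n 0 n) (FatS n D u) ≤
        81 * (n / D) ^ 2 * Real.exp (-((u / l) ^ 8)) := by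
  classical
  obtain ⟨l, hl, h⟩ := fat_box hC hU
  refine ⟨l, hl, fun n D u hD hDn hu => ?_⟩
  have hD0 : 0 < D := by linarith
  obtain ⟨g, hg⟩ : ∃ g : ℕ, g = ⌈D⌉₊ := ⟨_, rfl⟩
  have hg1 : D ≤ g := by rw [hg]; exact Nat.le_ceil _
  have hg2 : (g:ℝ) < D + 1 := by rw [hg]; exact Nat.ceil_lt_add_one hD0.le
  have hg0 : 0 < g := by
    have : (0:ℝ) < g := by linarith
    exact_mod_cast this
  have hgZ : (0:ℤ) < g := by exact_mod_cast hg0
  obtain ⟨I, hI⟩ : ∃ I : Finset (ℕ × ℕ), I = Finset.range (n / g + 1) ×ˢ Finset.range (n / g + 1) :=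
    ⟨_, rfl⟩
  have hev : Pr (fun _ => (1/2:ℝ)) (RE 0 n 0 n) (FatS n D u) ≤
      Pr (fun _ => (1/2:ℝ)) (RE 0 n 0 n) (fun F => ∃ j ∈ I,
        FatAt n (((j.1:ℤ) - 1) * g) (((j.2:ℤ) - 1) * g) (3 * g) u F) := by
    refine Pr_mono hok ?_
    rintro F _ ⟨v, a, b, hv, ha, hb, hab, hbox, hp⟩
    unfold inR at hv
    obtain ⟨⟨v1, v2⟩, v3, v4⟩ := hv
    have hdiv : ∀ x : ℤ, 0 ≤ x → x ≤ n → ∃ j : ℕ, j ∈ Finset.range (n / g + 1) ∧
        (j:ℤ) * g ≤ x ∧ x < ((j:ℤ) + 1) * g := by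
      intro x hx0 hxn
      obtain ⟨k, rfl⟩ := Int.eq_ofNat_of_zero_le hx0
      have hkn : k ≤ n := by exact_mod_cast hxn
      refine ⟨k / g, ?_, ?_, ?_⟩
      · rw [Finset.mem_range]
        exact Nat.lt_succ_of_le (Nat.div_le_div_right hkn)
      · exact_mod_cast Nat.div_mul_le_self k g
      · have := Nat.lt_div_mul_add (a := k) (b := g) hg0
        have h2 : k / g * g + g = (k / g + 1) * g := by ring
        rw [h2] at this
        exact_mod_cast this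
    obtain ⟨j1, hj1, e1, e2⟩ := hdiv v.1 v1 v2
    obtain ⟨j2, hj2, e3, e4⟩ := hdiv v.2 v3 v4
    refine ⟨(j1, j2), ?_, v, a, b, ha, hb, ?_, ?_, ?_⟩
    · rw [hI, Finset.mem_product]
      exact ⟨hj1, hj2⟩
    · have h1 : ((((3 * g : ℕ) : ℤ) ^ 2 : ℤ) : ℝ) ≤ ((800 * dsq a b : ℤ) : ℝ) := by
        push_cast
        have h2 : (3 * (g:ℝ)) ^ 2 ≤ (6 * D) ^ 2 := by
          apply pow_le_pow_left₀ (by positivity)
          linarith
        nlinarith
      exact_mod_cast h1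
    · intro w hw
      have h1 := hbox w hw
      have h2 : (dsq v w : ℝ) ≤ (g:ℝ) ^ 2 := h1.trans (pow_le_pow_left₀ hD0.le hg1 2)
      have h3 : dsq v w ≤ (g:ℤ) ^ 2 := by exact_mod_cast h2
      unfold dsq at h3
      have h4 : |v.1 - w.1| ≤ g := by
        apply abs_le_of_sq_le_sq _ hgZ.le
        nlinarith [sq_nonneg (v.2 - w.2)]
      have h5 : |v.2 - w.2| ≤ g := by
        apply abs_le_of_sq_le_sq _ hgZ.le
        nlinarith [sq_nonneg (v.1 - w.1)]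
      rw [abs_le] at h4 h5
      rw [mem_Bq]
      push_cast
      refine ⟨⟨?_, ?_⟩, ?_, ?_⟩ <;> nlinarith
    · rw [hg]
      exact hp
  refine hev.trans ((Pr_exists_le hok _ _ _).trans ?_)
  have hone : ∀ j ∈ I, Pr (fun _ => (1/2:ℝ)) (RE 0 n 0 n)
      (FatAt n (((j.1:ℤ) - 1) * g) (((j.2:ℤ) - 1) * g) (3 * g) u) ≤
      9 * Real.exp (-((u / l) ^ 8)) := fun j _ => h n _ _ _ u (by omega) hu
  refine (Finset.sum_le_sum hone).trans ?_
  rw [Finset.sum_const, nsmul_eq_mul, hI, Finset.card_product, Finset.card_range]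
  have h3 : (((n / g : ℕ) : ℝ) + 1) ≤ 3 * (n / D) := by
    have h4 : ((n / g : ℕ) : ℝ) ≤ (n:ℝ) / g := Nat.cast_div_le
    have h5 : (n:ℝ) / g ≤ n / D := div_le_div_of_nonneg_left (Nat.cast_nonneg _) hD0 hg1
    have h6 : 1/2 ≤ (n:ℝ) / D := by
      rw [le_div_iff₀ hD0]
      linarith
    linarith
  have h4 : ((((n / g + 1) * (n / g + 1) : ℕ)) : ℝ) ≤ 9 * (n / D) ^ 2 := by
    push_cast
    have := mul_le_mul h3 h3 (by positivity) (by positivity)
    calc (((n / g : ℕ) : ℝ) + 1) * (((n / g : ℕ) : ℝ) + 1) ≤ 3 * (n / D) * (3 * (n / D)) := this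
      _ = _ := by ring
  calc ((((n / g + 1) * (n / g + 1) : ℕ)) : ℝ) * (9 * Real.exp (-((u / l) ^ 8)))
      ≤ 9 * (n / D) ^ 2 * (9 * Real.exp (-((u / l) ^ 8))) :=
        mul_le_mul_of_nonneg_right h4 (by positivity)
    _ = _ := by ring

theorem all_up {C0 : ℝ} (hC0 : 0 < C0) (hU : TwoUp C0 (1/4)) : ∃ c C : ℝ, 0 < c ∧ 0 < C ∧
    ∀ (n : ℕ) (θ : ℝ), 1 ≤ n → 0 ≤ θ →
    Plain.prob n (fun F => ∃ v, ∃ r : ℝ, 1 ≤ r ∧ DiamGe F v r ∧ DiamLe F v r ∧
      θ * fat n r < (Plain.perimeter F v : ℝ)) ≤ C * Real.exp (-(c * θ ^ 8)) := by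
  obtain ⟨l, hl, h0⟩ := fat_scale hC0 hU
  have hl0 : 0 < l := by linarith
  have hl2 : 0 < Real.log 2 := Real.log_pos (by norm_num)
  have hl2' : Real.log 2 ≤ 1 := by
    have := Real.log_two_lt_d9
    linarith
  have hl2'' : (1:ℝ)/2 ≤ Real.log 2 := by
    have := Real.log_two_gt_d9
    linarith
  obtain ⟨c1, hc1⟩ : ∃ c1 : ℝ, c1 = Real.log 2 / (288 * l) ^ 8 := ⟨_, rfl⟩
  have hc10 : 0 < c1 := by rw [hc1]; positivity
  obtain ⟨θ0, hθ0⟩ : ∃ θ0 : ℝ, θ0 = 1728 * l := ⟨_, rfl⟩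
  have hθ00 : 0 < θ0 := by rw [hθ0]; positivity
  refine ⟨c1, 162 + Real.exp (c1 * θ0 ^ 8), hc10, by positivity, ?_⟩
  intro n θ hn hθ
  have hn0 : (0:ℝ) < n := by exact_mod_cast hn
  by_cases hcase : θ < θ0
  · have h1 : Plain.prob n (fun F => ∃ v, ∃ r : ℝ, 1 ≤ r ∧ DiamGe F v r ∧ DiamLe F v r ∧
        θ * fat n r < (Plain.perimeter F v : ℝ)) ≤ 1 := by
      rw [Plain.prob_eq]
      exact Pr_le_one hok _ _
    refine h1.trans ?_
    have h2 : θ ^ 8 ≤ θ0 ^ 8 := pow_le_pow_left₀ hθ hcase.le 8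
    have h3 : Real.exp (c1 * θ0 ^ 8) * Real.exp (-(c1 * θ ^ 8)) =
        Real.exp (c1 * (θ0 ^ 8 - θ ^ 8)) := by
      rw [← Real.exp_add]; congr 1; ring
    have h4 : 1 ≤ Real.exp (c1 * (θ0 ^ 8 - θ ^ 8)) :=
      Real.one_le_exp (mul_nonneg hc10.le (by linarith))
    have h5 : 0 ≤ 162 * Real.exp (-(c1 * θ ^ 8)) := by positivity
    rw [add_mul, h3]
    linarith
  push Not at hcase
  have hθp : 0 < θ := by linarith
  obtain ⟨s, hs⟩ : ∃ s : ℝ, s = c1 * θ ^ 8 := ⟨_, rfl⟩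
  have hs4 : 4 ≤ s := by
    have h1 : θ0 ^ 8 ≤ θ ^ 8 := pow_le_pow_left₀ hθ00.le hcase 8
    have h2 : c1 * θ0 ^ 8 = Real.log 2 * 6 ^ 8 := by
      rw [hc1, hθ0]
      have : (1728 * l) ^ 8 = (288 * l) ^ 8 * 6 ^ 8 := by rw [← mul_pow]; ring
      rw [this]
      have h3 : (288 * l) ^ 8 ≠ 0 := by positivity
      field_simp
    have h3 := mul_le_mul_of_nonneg_left h1 hc10.le
    rw [h2, ← hs] at h3
    have h4 : (1:ℝ)/2 * 6 ^ 8 ≤ Real.log 2 * 6 ^ 8 :=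
      mul_le_mul_of_nonneg_right hl2'' (by norm_num)
    norm_num at h4 h3
    linarith
  -- the blocks
  obtain ⟨u, hu⟩ : ∃ u : ℕ → ℝ, u = fun i : ℕ => θ / 288 * (((i:ℝ) + 1) * Real.log 2) ^ (1/8:ℝ) :=
    ⟨_, rfl⟩
  have hu8 : ∀ i, (u i / l) ^ 8 = s * ((i:ℝ) + 1) := by
    intro i
    rw [hu]
    simp only
    have h1 : θ / 288 * (((i:ℝ) + 1) * Real.log 2) ^ (1/8:ℝ) / l =
        (θ / (288 * l)) * (((i:ℝ) + 1) * Real.log 2) ^ (1/8:ℝ) := by
      field_simp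
    rw [h1, mul_pow, ← Real.rpow_natCast ((((i:ℝ) + 1) * Real.log 2) ^ (1/8:ℝ)) 8,
      ← Real.rpow_mul (by positivity)]
    norm_num
    rw [hs, hc1, div_pow]
    ring
  have hu3 : ∀ i, 3 * l ≤ u i := by
    intro i
    rw [hu]
    simp only
    have h1 : (1:ℝ)/2 ≤ (((i:ℝ) + 1) * Real.log 2) ^ (1/8:ℝ) := by
      have h2 : (1:ℝ)/2 ≤ ((i:ℝ) + 1) * Real.log 2 := by
        have : (0:ℝ) ≤ (i:ℝ) := Nat.cast_nonneg _
        nlinarith
      calc (1:ℝ)/2 = ((1:ℝ)/2) ^ (1:ℝ) := (Real.rpow_one _).symm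
        _ ≤ ((1:ℝ)/2) ^ (1/8:ℝ) :=
            Real.rpow_le_rpow_of_exponent_ge (by norm_num) (by norm_num) (by norm_num)
        _ ≤ _ := Real.rpow_le_rpow (by norm_num) h2 (by norm_num)
    have h2 : 6 * l ≤ θ / 288 := by
      rw [le_div_iff₀ (by norm_num)]
      rw [hθ0] at hcase
      linarith
    nlinarith
  obtain ⟨A, hA⟩ : ∃ A : ℕ → Finset Edg → Prop, A = fun i F =>
    1 ≤ 2 * (n:ℝ) / 2 ^ i ∧ FatS n (2 * n / 2 ^ i) (u i) F := ⟨_, rfl⟩
  have hAp : ∀ i, Pr (fun _ => (1/2:ℝ)) (RE 0 n 0 n) (A i) ≤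
      81 * Real.exp (-s) * (1/2) ^ i := by
    intro i
    by_cases hD : 1 ≤ 2 * (n:ℝ) / 2 ^ i
    · have h2i : (1:ℝ) ≤ 2 ^ i := one_le_pow₀ (by norm_num)
      have h1 := h0 n (2 * n / 2 ^ i) (u i) hD (div_le_self (by positivity) h2i) (hu3 i)
      rw [hu8] at h1
      have h2 : Pr (fun _ => (1/2:ℝ)) (RE 0 n 0 n) (A i) ≤
          Pr (fun _ => (1/2:ℝ)) (RE 0 n 0 n) (FatS n (2 * n / 2 ^ i) (u i)) := by
        refine Pr_mono hok ?_
        intro F _ hF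
        rw [hA] at hF
        exact hF.2
      refine h2.trans (h1.trans ?_)
      have h3 : ((n:ℝ) / (2 * n / 2 ^ i)) ^ 2 = (1/4) * 4 ^ i := by
        have : (n:ℝ) / (2 * n / 2 ^ i) = (1/2) * 2 ^ i := by field_simp
        rw [this, mul_pow, ← pow_mul, mul_comm i 2, pow_mul]
        norm_num
      rw [h3]
      have h4 : Real.exp (-(s * ((i:ℝ) + 1))) = Real.exp (-s) * Real.exp (-s) ^ i := by
        rw [← Real.exp_nat_mul, ← Real.exp_add]
        congr 1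
        ring
      rw [h4]
      have h5 : 4 * Real.exp (-s) ≤ 1/2 := by
        have h6 : Real.exp (-s) ≤ Real.exp (-4) := Real.exp_le_exp.mpr (by linarith)
        have h7 : Real.exp (-4) ≤ 1/8 := by
          rw [Real.exp_neg, one_div]
          apply inv_anti₀ (by norm_num)
          have := Real.add_one_le_exp (2:ℝ)
          have h8 : Real.exp 4 = Real.exp 2 * Real.exp 2 := by rw [← Real.exp_add]; norm_num
          rw [h8]
          nlinarith
        linarith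
      have h6 : (4 * Real.exp (-s)) ^ i ≤ (1/2) ^ i :=
        pow_le_pow_left₀ (by positivity) h5 i
      have he := Real.exp_pos (-s)
      calc 81 * (1/4 * 4 ^ i) * (Real.exp (-s) * Real.exp (-s) ^ i)
          = 81/4 * Real.exp (-s) * (4 * Real.exp (-s)) ^ i := by rw [mul_pow]; ring
        _ ≤ 81/4 * Real.exp (-s) * (1/2) ^ i := mul_le_mul_of_nonneg_left h6 (by positivity)
        _ ≤ _ := by
            apply mul_le_mul_of_nonneg_right _ (by positivity)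
            linarith
    · have h1 : Pr (fun _ => (1/2:ℝ)) (RE 0 n 0 n) (A i) ≤ 0 := by
        refine le_of_eq ?_
        unfold Pr
        rw [Ex_congr (g := fun _ => 0) (fun F _ => ind_not_of (by
          rw [hA]
          exact fun hF => hD hF.1)), Ex_const]
      refine h1.trans (by positivity)
  have hmain : Plain.prob n (fun F => ∃ v, ∃ r : ℝ, 1 ≤ r ∧ DiamGe F v r ∧ DiamLe F v r ∧
      θ * fat n r < (Plain.perimeter F v : ℝ)) ≤
      Pr (fun _ => (1/2:ℝ)) (RE 0 n 0 n) (fun F => ∃ i ∈ Finset.range (2 * n), A i F) := by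
    refine Plain.prob_le_of_pr fun F hF => ?_
    rintro ⟨v, r, hr1, hD, hDl, hp⟩
    obtain ⟨g1, -⟩ := diam_facts hF hr1 hD
    have hr0 : 0 < r := by linarith
    obtain ⟨i, hi1, hi2⟩ := exists_nat_pow_near (x := 2 * n / r) (y := (2:ℝ))
      (by rw [le_div_iff₀ hr0]; linarith) (by norm_num)
    have h2i : (0:ℝ) < 2 ^ i := by positivity
    obtain ⟨D, hDd⟩ : ∃ D : ℝ, D = 2 * n / 2 ^ i := ⟨_, rfl⟩
    have hrD : r ≤ D := by
      rw [hDd, le_div_iff₀ h2i]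
      rw [le_div_iff₀ hr0] at hi1
      linarith
    have hDr : D ≤ 2 * r := by
      rw [hDd, div_le_iff₀ h2i]
      rw [div_lt_iff₀ hr0, pow_succ] at hi2
      linarith
    have hD1 : 1 ≤ D := by linarith
    have hD0 : 0 < D := by linarith
    refine ⟨i, ?_, ?_⟩
    · rw [Finset.mem_range]
      have h1 : (2:ℝ) ^ i ≤ 2 * n := by
        refine hi1.trans (div_le_self (by positivity) hr1)
      have h2 : (2:ℕ) ^ i ≤ 2 * n := by exact_mod_cast h1
      exact lt_of_lt_of_le (Nat.lt_two_pow_self) h2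
    · rw [hA]
      simp only
      rw [← hDd]
      refine ⟨hD1, ?_⟩
      obtain ⟨a, ha, b, hb, hab⟩ := hD
      have hne : a ≠ b := by
        rintro rfl
        have : (Plain.sqDist a a : ℝ) = 0 := by unfold Plain.sqDist; simp
        rw [this, Real.sqrt_zero] at hab
        linarith
      have hF' : F ⊆ RE 0 n 0 n := by rw [← Plain.edges_eq]; exact hF
      have ha' := (Plain.mem_cluster _ _ _).mp ha
      have hb' := (Plain.mem_cluster _ _ _).mp hb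
      have hvbox : inR 0 n 0 n v := by
        by_cases hav : a = v
        · rw [← hav]
          exact pb_box hF' (hb'.symm.trans ha') hne.symm
        · exact pb_box hF' ha'.symm hav
      refine ⟨v, a, b, hvbox, ha', hb', ?_, ?_, ?_⟩
      · have h1 : r ^ 2 ≤ (dsq a b : ℝ) := by
          have h2 : (0:ℝ) ≤ (Plain.sqDist a b : ℝ) := by
            unfold Plain.sqDist; push_cast; positivity
          have h3 := pow_le_pow_left₀ hr0.le hab 2
          rw [Real.sq_sqrt h2] at h3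
          exact h3
        have h4 : D ^ 2 ≤ (2 * r) ^ 2 := pow_le_pow_left₀ hD0.le hDr 2
        linarith [show (2 * r) ^ 2 = 4 * r ^ 2 by ring]
      · intro w hw
        have h1 := hDl v ((Plain.mem_cluster _ _ _).mpr (Reach.refl _ _)) w
          ((Plain.mem_cluster _ _ _).mpr hw)
        rw [Real.sqrt_le_left hr0.le] at h1
        have h2 : r ^ 2 ≤ D ^ 2 := pow_le_pow_left₀ hr0.le hrD 2
        exact le_trans h1 h2
      · rw [← Plain.perimeter_eq hF]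
        refine lt_of_le_of_lt ?_ hp
        unfold fat
        have hL0 : 0 < ((i:ℝ) + 1) * Real.log 2 := by positivity
        have hL : ((i:ℝ) + 1) * Real.log 2 ≤ Real.log (4 * n / r) := by
          have h1 : ((i:ℝ) + 1) * Real.log 2 = Real.log (2 ^ (i + 1)) := by
            rw [Real.log_pow]; push_cast; ring
          rw [h1]
          apply Real.log_le_log (by positivity)
          rw [le_div_iff₀ hr0]
          rw [hDd, le_div_iff₀ (by positivity)] at hrD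
          calc (2:ℝ) ^ (i + 1) * r = 2 * (r * 2 ^ i) := by ring
            _ ≤ 2 * (2 * n) := by linarith
            _ = 4 * n := by ring
        have hL8 : (((i:ℝ) + 1) * Real.log 2) ^ (1/8:ℝ) ≤ (Real.log (4 * n / r)) ^ (1/8:ℝ) :=
          Real.rpow_le_rpow hL0.le hL (by norm_num)
        have hg : ((3 * ⌈D⌉₊ : ℕ) : ℝ) ≤ 12 * r := by
          have := Nat.ceil_lt_add_one hD0.le
          push_cast
          linarith
        have hg7 : ((3 * ⌈D⌉₊ : ℕ) : ℝ) ^ (7/4:ℝ) ≤ 144 * r ^ (7/4:ℝ) := by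
          calc ((3 * ⌈D⌉₊ : ℕ) : ℝ) ^ (7/4:ℝ) ≤ (12 * r) ^ (7/4:ℝ) :=
                Real.rpow_le_rpow (Nat.cast_nonneg _) hg (by norm_num)
            _ = 12 ^ (7/4:ℝ) * r ^ (7/4:ℝ) := Real.mul_rpow (by norm_num) hr0.le
            _ ≤ 12 ^ (2:ℝ) * r ^ (7/4:ℝ) := by
                apply mul_le_mul_of_nonneg_right _ (by positivity)
                exact Real.rpow_le_rpow_of_exponent_le (by norm_num) (by norm_num)
            _ = _ := by norm_num
        rw [hu]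
        simp only
        have hLL : 0 ≤ (((i:ℝ) + 1) * Real.log 2) ^ (1/8:ℝ) := by positivity
        calc 2 * (θ / 288 * (((i:ℝ) + 1) * Real.log 2) ^ (1/8:ℝ)) *
              ((3 * ⌈D⌉₊ : ℕ) : ℝ) ^ (7/4:ℝ)
            ≤ 2 * (θ / 288 * (((i:ℝ) + 1) * Real.log 2) ^ (1/8:ℝ)) * (144 * r ^ (7/4:ℝ)) :=
              mul_le_mul_of_nonneg_left hg7 (by positivity)
          _ = θ * (r ^ (7/4:ℝ) * (((i:ℝ) + 1) * Real.log 2) ^ (1/8:ℝ)) := by ring
          _ ≤ _ := by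
              apply mul_le_mul_of_nonneg_left _ hθp.le
              exact mul_le_mul_of_nonneg_left hL8 (by positivity)
  refine hmain.trans ?_
  refine (Pr_exists_le hok _ _ _).trans ?_
  refine (Finset.sum_le_sum fun i _ => hAp i).trans ?_
  rw [← Finset.mul_sum]
  have hgeo : ∑ i ∈ Finset.range (2 * n), ((1:ℝ)/2) ^ i ≤ 2 := sum_geometric_two_le (2 * n)
  have he := Real.exp_pos (-s)
  have he2 := Real.exp_pos (c1 * θ0 ^ 8)
  rw [← hs]
  calc 81 * Real.exp (-s) * ∑ i ∈ Finset.range (2 * n), ((1:ℝ)/2) ^ i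
      ≤ 81 * Real.exp (-s) * 2 := mul_le_mul_of_nonneg_left hgeo (by positivity)
    _ = 162 * Real.exp (-s) := by ring
    _ ≤ _ := mul_le_mul_of_nonneg_right (by linarith) he.le

end Pool.Agent.X135.TC
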