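import Pool.Agent.X135.PL.Final2
import Pool.Agent.H342R2.Per.Sharp

/-!
The perimeter of a cluster which stays in a small box, and translations.
-/

set_option autoImplicit false

namespace Pool.Agent.X135.TC

open H974 Finset H342P Pool.Agent.Y244.PC Pool.Agent.X135.PL

/-- translated edge -/
def tr (z : Vtx) (e : Edg) : Edg := (e.1 + z.1, e.2.1 + z.2, e.2.2)

theorem src_tr (z : Vtx) (e : Edg) : src (tr z e) = src e + z := rfl

theorem dsrc_tr (z : Vtx) (e : Edg) : dsrc (tr z e) = dsrc e + z := by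
  obtain ⟨x, y, _ | _⟩ := e
  · show ((x + z.1 - 1, y + z.2) : Vtx) = (x - 1 + z.1, y + z.2)
    congr 1
    ring
  · show ((x + z.1, y + z.2 - 1) : Vtx) = (x + z.1, y - 1 + z.2)
    congr 1
    ring

theorem dtgt_tr (z : Vtx) (e : Edg) : dtgt (tr z e) = dtgt e + z := rfl

theorem mem_sh {z : Vtx} {F : Finset Edg} {e : Edg} : e ∈ sh z F ↔ tr z e ∈ F := by
  unfold sh
  rw [LSym.mem_mp]
  obtain ⟨x, y, b⟩ := e
  rw [trl_φs]
  unfold tr
  simp

theorem dreach_tr {X Y : Set Edg} {z : Vtx} (h : ∀ e, e ∈ X → tr z e ∈ Y) {f g : Vtx}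
    (hr : DReach X f g) : DReach Y (f + z) (g + z) := by
  induction hr with
  | refl => exact DReach.refl _ _
  | tail _ hs ih =>
    refine Relation.ReflTransGen.tail ih ?_
    obtain ⟨e, he, hc⟩ := hs
    refine ⟨tr z e, h e he, ?_⟩
    rw [dsrc_tr, dtgt_tr]
    rcases hc with ⟨h1, h2⟩ | ⟨h1, h2⟩
    · left; rw [h1, h2]; exact ⟨rfl, rfl⟩
    · right; rw [h1, h2]; exact ⟨rfl, rfl⟩

theorem mem_EC_sh {z : Vtx} {F : Finset Edg} {v : Vtx} {e : Edg} :
    e ∈ EC (↑(sh z F) : Set Edg) v ↔ tr z e ∈ EC (↑F : Set Edg) (v + z) := by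
  unfold EC
  rw [Set.mem_ofPred_eq, Set.mem_ofPred_eq, Finset.mem_coe, Finset.mem_coe, mem_sh, sh_reach,
    src_tr]

theorem tr_neg (z : Vtx) (e : Edg) : tr z (tr (-z) e) = e := by
  unfold tr
  obtain ⟨x, y, b⟩ := e
  simp

theorem outer_sh {z : Vtx} {F : Finset Edg} {v f : Vtx} (hz : DReach (EC (↑F : Set Edg) (v + z))ᶜ
      ((-1, -1) + z) (-1, -1)) :
    Outer (↑(sh z F) : Set Edg) v f ↔ Outer (↑F : Set Edg) (v + z) (f + z) := by
  unfold Outer
  constructor
  · intro h
    have h1 := dreach_tr (Y := (EC (↑F : Set Edg) (v + z))ᶜ) (z := z) (fun e he => by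
      rw [Set.mem_compl_iff] at he ⊢
      rwa [mem_EC_sh] at he) h
    exact h1.trans hz
  · intro h
    have h1 := dreach_tr (Y := (EC (↑(sh z F) : Set Edg) v)ᶜ) (z := -z) (fun e he => by
      rw [Set.mem_compl_iff] at he ⊢
      rw [mem_EC_sh, tr_neg]
      exact he) (h.trans hz.symm)
    rwa [add_neg_cancel_right, add_neg_cancel_right] at h1

theorem perimeter_sh {z : Vtx} {F : Finset Edg} {v : Vtx} (hz : DReach (EC (↑F : Set Edg) (v + z))ᶜ
      ((-1, -1) + z) (-1, -1)) :
    Plain.perimeter (sh z F) v = Plain.perimeter F (v + z) := by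
  classical
  unfold Plain.perimeter
  have hF : F = (sh z F).map ⟨tr z, fun a b hab => by
      have := congrArg (tr (-z)) hab
      have h2 := tr_neg (-z) a
      have h3 := tr_neg (-z) b
      rw [neg_neg] at h2 h3
      rw [h2, h3] at this
      exact this⟩ := by
    ext e
    rw [Finset.mem_map]
    constructor
    · intro he
      refine ⟨tr (-z) e, ?_, tr_neg z e⟩
      rw [mem_sh, tr_neg]
      exact he
    · rintro ⟨e', he', rfl⟩
      exact mem_sh.mp he'
  conv_rhs => rw [show (∑ e ∈ F, if e ∈ Plain.clusterEdges F (v + z) then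
    ((if Plain.Outer F (v + z) (Plain.side₁ e) then 1 else 0) +
      (if Plain.Outer F (v + z) (Plain.side₂ e) then 1 else 0)) else 0) =
    (∑ e ∈ (sh z F).map ⟨tr z, fun a b hab => by
      have := congrArg (tr (-z)) hab
      have h2 := tr_neg (-z) a
      have h3 := tr_neg (-z) b
      rw [neg_neg] at h2 h3
      rw [h2, h3] at this
      exact this⟩, if e ∈ Plain.clusterEdges F (v + z) then
    ((if Plain.Outer F (v + z) (Plain.side₁ e) then 1 else 0) +
      (if Plain.Outer F (v + z) (Plain.side₂ e) then 1 else 0)) else 0) from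
        Finset.sum_congr hF (fun _ _ => rfl)]
  rw [Finset.sum_map]
  apply Finset.sum_congr rfl
  intro e _
  simp only [Function.Embedding.coeFn_mk, Plain.clusterEdges_eq, Plain.outer_iff,
    Plain.side₁_eq, Plain.side₂_eq, mem_EC_sh, outer_sh hz, dsrc_tr, dtgt_tr]

/-- a cluster which stays strictly inside a box -/
theorem conf_reach {G : Finset Edg} {s t N : ℤ} {v : Vtx}
    (h : ∀ w, Reach (↑(G ∩ RE s (s + N) t (t + N)) : Set Edg) v w →
      inR (s + 1) (s + N - 1) (t + 1) (t + N - 1) w) {w : Vtx} (hr : Reach (↑G : Set Edg) v w) :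
    Reach (↑(G ∩ RE s (s + N) t (t + N)) : Set Edg) v w := by
  induction hr with
  | refl => exact Reach.refl _ _
  | @tail w0 w1 _ hs ih =>
    have h0 := h w0 ih
    refine Relation.ReflTransGen.tail ih ?_
    obtain ⟨e, he, hc⟩ := hs
    refine ⟨e, ?_, hc⟩
    rw [Finset.coe_inter]
    refine ⟨he, ?_⟩
    rw [Finset.mem_coe]
    unfold inR at h0
    obtain ⟨x, y, _ | _⟩ := e
    · rw [mem_RE_false]
      rw [src_mk, tgt_false] at hc
      rcases hc with ⟨h1, -⟩ | ⟨-, h1⟩
      · rw [← h1] at h0; simp only at h0; omega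
      · rw [← h1] at h0; simp only at h0; omega
    · rw [mem_RE_true]
      rw [src_mk, tgt_true] at hc
      rcases hc with ⟨h1, -⟩ | ⟨-, h1⟩
      · rw [← h1] at h0; simp only at h0; omega
      · rw [← h1] at h0; simp only at h0; omega

theorem conf_EC {G : Finset Edg} {s t N : ℤ} {v : Vtx}
    (h : ∀ w, Reach (↑(G ∩ RE s (s + N) t (t + N)) : Set Edg) v w →
      inR (s + 1) (s + N - 1) (t + 1) (t + N - 1) w) :
    EC (↑G : Set Edg) v = EC (↑(G ∩ RE s (s + N) t (t + N)) : Set Edg) v := by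
  ext e
  unfold EC
  rw [Set.mem_ofPred_eq, Set.mem_ofPred_eq]
  constructor
  · rintro ⟨h1, h2⟩
    have h3 := conf_reach h h2
    refine ⟨?_, h3⟩
    have h0 := h _ h3
    rw [Finset.coe_inter]
    refine ⟨h1, ?_⟩
    rw [Finset.mem_coe]
    unfold inR at h0
    obtain ⟨x, y, _ | _⟩ := e
    · rw [mem_RE_false]
      rw [src_mk] at h0; simp only at h0; omega
    · rw [mem_RE_true]
      rw [src_mk] at h0; simp only at h0; omega
  · rintro ⟨h1, h2⟩
    refine ⟨?_, h2.mono ?_⟩
    · rw [Finset.coe_inter] at h1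
      exact h1.1
    · rw [Finset.coe_inter]
      exact Set.inter_subset_left

theorem drow {X : Set Edg} (x y : ℤ) (k : ℕ)
    (h : ∀ i : ℕ, i < k → (x + i + 1, y, false) ∈ X) : DReach X (x, y) (x + k, y) := by
  induction k with
  | zero => simp only [Nat.cast_zero, add_zero]; exact DReach.refl _ _
  | succ k ih =>
    refine Relation.ReflTransGen.tail (ih fun i hi => h i (by omega)) ?_
    refine ⟨_, h k (by omega), Or.inl ⟨?_, ?_⟩⟩
    · rw [dsrc_false]; congr 1; ring
    · rw [dtgt_mk]; push_cast; congr 1; ring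

theorem dcol {X : Set Edg} (x y : ℤ) (k : ℕ)
    (h : ∀ i : ℕ, i < k → (x, y + i + 1, true) ∈ X) : DReach X (x, y) (x, y + k) := by
  induction k with
  | zero => simp only [Nat.cast_zero, add_zero]; exact DReach.refl _ _
  | succ k ih =>
    refine Relation.ReflTransGen.tail (ih fun i hi => h i (by omega)) ?_
    refine ⟨_, h k (by omega), Or.inl ⟨?_, ?_⟩⟩
    · rw [dsrc_true]; congr 1; ring
    · rw [dtgt_mk]; push_cast; congr 1; ring

/-- the corner of the small box is an outer face -/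
theorem corner_out {X : Set Edg} {s t : ℕ} (h : ∀ e ∈ X, (s:ℤ) ≤ (src e).1 ∧ (t:ℤ) ≤ (src e).2) :
    DReach Xᶜ ((-1, -1) + ((s:ℤ), (t:ℤ))) (-1, -1) := by
  have h1 : DReach Xᶜ (-1, -1) (-1 + (s:ℤ), -1) := by
    apply drow
    intro i _ he
    have := (h _ he).2
    rw [src_mk] at this
    simp only at this
    omega
  have h2 : DReach Xᶜ (-1 + (s:ℤ), -1) (-1 + (s:ℤ), -1 + (t:ℤ)) := by
    apply dcol
    intro i _ he
    have := (h _ he).1
    rw [src_mk] at this
    simp only at this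
    omega
  exact (h1.trans h2).symm

/-- The perimeter of a cluster which stays strictly inside a small box. -/
theorem perimeter_local {G : Finset Edg} {s t N : ℕ} {v : Vtx}
    (h : ∀ w, Reach (↑(sh ((s:ℤ), (t:ℤ)) (G ∩ RE s (s + N) t (t + N))) : Set Edg) v w →
      inR 1 (N - 1) 1 (N - 1) w) :
    Plain.perimeter G (v + ((s:ℤ), (t:ℤ))) =
      Plain.perimeter (sh ((s:ℤ), (t:ℤ)) (G ∩ RE s (s + N) t (t + N))) v ∧
    ∀ w, Reach (↑G : Set Edg) (v + ((s:ℤ), (t:ℤ))) w ↔
      Reach (↑(sh ((s:ℤ), (t:ℤ)) (G ∩ RE s (s + N) t (t + N))) : Set Edg) v (w - ((s:ℤ), (t:ℤ))) := by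
  classical
  have h' : ∀ w, Reach (↑(G ∩ RE (s:ℤ) (s + N) t (t + N)) : Set Edg) (v + ((s:ℤ), (t:ℤ))) w →
      inR (s + 1) (s + N - 1) (t + 1) (t + N - 1) w := by
    intro w hw
    have h1 := h (w - ((s:ℤ), (t:ℤ))) (by
      rw [sh_reach, sub_add_cancel]
      exact hw)
    unfold inR at h1 ⊢
    simp only [Prod.fst_sub, Prod.snd_sub] at h1
    omega
  have hE := conf_EC h'
  have hr : ∀ w, Reach (↑G : Set Edg) (v + ((s:ℤ), (t:ℤ))) w ↔
      Reach (↑(G ∩ RE (s:ℤ) (s + N) t (t + N)) : Set Edg) (v + ((s:ℤ), (t:ℤ))) w := fun w =>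
    ⟨fun hw => conf_reach h' hw, fun hw => hw.mono (by
      rw [Finset.coe_inter]; exact Set.inter_subset_left)⟩
  constructor
  · rw [perimeter_sh]
    · unfold Plain.perimeter
      simp only [Plain.clusterEdges_eq, Plain.outer_iff, Plain.side₁_eq, Plain.side₂_eq]
      unfold Outer
      rw [← hE]
      symm
      apply Finset.sum_subset Finset.inter_subset_left
      intro e he he'
      rw [if_neg]
      intro he2
      rw [hE] at he2
      exact he' (by exact_mod_cast he2.1)
    · apply corner_out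
      intro e he
      have h1 := h' _ he.2
      unfold inR at h1
      omega
  · intro w
    rw [hr, sh_reach, sub_add_cancel]

end Pool.Agent.X135.TC
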