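import Pool.Agent.X135.TC.Exist

/-!
The thinnest clusters: all scales at the same time, and the lower tail.
-/

set_option autoImplicit false

namespace Pool.Agent.X135.TC

open H974 Finset H342P H984P Pool.Agent.Y244.PC Pool.Agent.X135.PL

theorem one_scale {C0 : ℝ} (hC0 : 0 < C0) (hU : TwoUp C0 (1/4)) : ∃ K : ℝ, 1 ≤ K ∧
    ∀ (n : ℕ) (D : ℝ), K ≤ D → K * D ≤ n →
      Plain.prob n (fun F => ¬ ∃ v, DiamGe F v D ∧ DiamLe F v (4 * D) ∧
        (Plain.perimeter F v : ℝ) ≤ K * thin n D) ≤ Real.exp (-(n / D)) := by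
  obtain ⟨c, C, hc, hc1, hC, hth⟩ := th_low hC0 hU
  obtain ⟨A, hA⟩ : ∃ A : ℝ, A = 1 / c + (2 * C) ^ (3/4:ℝ) := ⟨_, rfl⟩
  have hA0 : 0 < A := by rw [hA]; positivity
  have hAc : 1 / c ≤ A := by
    rw [hA]
    have : 0 < (2 * C) ^ (3/4:ℝ) := by positivity
    linarith
  have hAC : C * A ^ (-(4/3):ℝ) ≤ 1/2 := by
    have h1 : (2 * C) ^ (3/4:ℝ) ≤ A := by
      rw [hA]
      have : 0 < 1 / c := by positivity
      linarith
    have h2 : A ^ (-(4/3):ℝ) ≤ ((2 * C) ^ (3/4:ℝ)) ^ (-(4/3):ℝ) :=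
      Real.rpow_le_rpow_of_nonpos (by positivity) h1 (by norm_num)
    rw [← Real.rpow_mul (by positivity)] at h2
    norm_num at h2
    rw [Real.rpow_neg_one] at h2
    have h3 := mul_le_mul_of_nonneg_left h2 hC.le
    refine h3.trans (le_of_eq ?_)
    field_simp
  obtain ⟨κ, hκ⟩ : ∃ κ : ℝ, κ = Real.exp (-(C * (4 / c ^ 2))) * c ^ 2 / 72 := ⟨_, rfl⟩
  have hκ0 : 0 < κ := by rw [hκ]; positivity
  obtain ⟨K, hK⟩ : ∃ K : ℝ, K = 1 + 6 / c + A + 1 / κ ^ 2 := ⟨_, rfl⟩
  have k1 : 0 < 6 / c := by positivity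
  have k2 : 0 < 1 / κ ^ 2 := by positivity
  have k3 : 1 / c ≤ 6 / c := div_le_div_of_nonneg_right (by norm_num) hc.le
  have hK1 : 1 ≤ K := by rw [hK]; linarith
  refine ⟨K, hK1, ?_⟩
  intro n D hKD hKn
  have hD1 : 1 ≤ D := hK1.trans hKD
  have hD0 : 0 < D := by linarith
  have hn0 : (0:ℝ) < n := lt_of_lt_of_le (by positivity) hKn
  obtain ⟨R, hR⟩ : ∃ R : ℝ, R = n / D := ⟨_, rfl⟩
  have hKR : K ≤ R := by rw [hR, le_div_iff₀ hD0]; exact hKn
  have hR0 : 0 < R := by linarith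
  obtain ⟨L, hL⟩ : ∃ L : ℝ, L = Real.log (4 * n / D) := ⟨_, rfl⟩
  have h4R : 4 * (n:ℝ) / D = 4 * R := by rw [hR]; ring
  have hL0 : 0 < L := by
    rw [hL, h4R]
    apply Real.log_pos
    linarith
  obtain ⟨N, hN⟩ : ∃ N : ℕ, N = ⌈D / c⌉₊ := ⟨_, rfl⟩
  have hN1 : D / c ≤ N := by rw [hN]; exact Nat.le_ceil _
  have hN2 : (N:ℝ) < D / c + 1 := by rw [hN]; exact Nat.ceil_lt_add_one (by positivity)
  have hDc : D ≤ D / c := by
    rw [le_div_iff₀ hc]
    nlinarith
  have hthin0 : 0 < thin n D := lt_of_lt_of_le hD0 (le_max_left _ _)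
  -- the small box
  have hq := hth N (A * thin n D) D (by
      have h1 : 1 / c ≤ D := by linarith
      rw [div_le_iff₀ hc] at h1
      linarith) (by rw [div_le_iff₀ hc] at hN1; linarith) (by
      have h1 : 1 ≤ c * A := by
        rw [div_le_iff₀ hc] at hAc
        linarith
      have h2 : D ≤ thin n D := le_max_left _ _
      calc D ≤ 1 * thin n D := by linarith
        _ ≤ (c * A) * thin n D := mul_le_mul_of_nonneg_right h1 hthin0.le
        _ = c * (A * thin n D) := by ring)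
  obtain ⟨M, hM⟩ : ∃ M : ℕ, M = n / (N + 1) := ⟨_, rfl⟩
  have hM1 : M * (N + 1) ≤ n := by rw [hM]; exact Nat.div_mul_le_self _ _
  have hM2 : (n:ℝ) / (N + 1) < M + 1 := by
    rw [hM, div_lt_iff₀ (by positivity)]
    have := Nat.lt_div_mul_add (a := n) (b := N + 1) (by omega)
    have h2 : (n:ℝ) < ((n / (N + 1) : ℕ) : ℝ) * (N + 1) + (N + 1) := by exact_mod_cast this
    linarith
  have hN3 : (N:ℝ) + 1 ≤ 3 / c * D := by
    have : 3 / c * D = 3 * (D / c) := by ring
    rw [this]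
    linarith
  have hM3 : c / 6 * R ≤ M := by
    have h1 : c / 3 * R ≤ (n:ℝ) / (N + 1) := by
      rw [le_div_iff₀ (by positivity), hR]
      calc c / 3 * (n / D) * (N + 1) ≤ c / 3 * (n / D) * (3 / c * D) :=
            mul_le_mul_of_nonneg_left hN3 (by positivity)
        _ = n := by field_simp
    have h2 : 1 ≤ c / 6 * R := by
      have h3 : 6 / c ≤ R := by linarith
      rw [div_le_iff₀ hc] at h3
      linarith
    linarith
  have hmain := many hM1 hD0.le hq
  refine le_trans ?_ (hmain.trans (Real.exp_le_exp.mpr ?_))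
  · rw [Plain.prob_eq, Plain.prob_eq]
    refine Pr_mono hok ?_
    intro F _ h1 h2
    apply h1
    obtain ⟨v, g1, g2, g3⟩ := h2
    refine ⟨v, g1, g2, g3.trans ?_⟩
    exact mul_le_mul_of_nonneg_right (by rw [hK]; linarith) hthin0.le
  · rw [neg_le_neg_iff, ← hR]
    -- the exponent
    have hND : ((N:ℝ) / D) ^ 2 ≤ 4 / c ^ 2 := by
      have h1 : (N:ℝ) / D ≤ 2 / c := by
        rw [div_le_iff₀ hD0]
        have : 2 / c * D = 2 * (D / c) := by ring
        rw [this]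
        linarith
      have h2 : ((N:ℝ) / D) ^ 2 ≤ (2 / c) ^ 2 := pow_le_pow_left₀ (by positivity) h1 2
      refine h2.trans (le_of_eq ?_)
      rw [div_pow]
      norm_num
    have hz : D ^ (7/3:ℝ) * (A * thin n D) ^ (-(4/3):ℝ) ≤ A ^ (-(4/3):ℝ) * L := by
      have h1 : D ^ (7/4:ℝ) * L ^ (-(3/4):ℝ) ≤ thin n D := by
        unfold thin
        rw [hL]
        exact le_max_right _ _
      rw [Real.mul_rpow hA0.le hthin0.le]
      have h2 : thin n D ^ (-(4/3):ℝ) ≤ (D ^ (7/4:ℝ) * L ^ (-(3/4):ℝ)) ^ (-(4/3):ℝ) :=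
        Real.rpow_le_rpow_of_nonpos (by positivity) h1 (by norm_num)
      rw [Real.mul_rpow (by positivity) (by positivity), ← Real.rpow_mul hD0.le,
        ← Real.rpow_mul hL0.le] at h2
      norm_num at h2
      calc D ^ (7/3:ℝ) * (A ^ (-(4/3):ℝ) * thin n D ^ (-(4/3):ℝ))
          ≤ D ^ (7/3:ℝ) * (A ^ (-(4/3):ℝ) * (D ^ (-(7/3):ℝ) * L)) := by
            gcongr
        _ = A ^ (-(4/3):ℝ) * L * (D ^ (7/3:ℝ) * D ^ (-(7/3):ℝ)) := by ring
        _ = A ^ (-(4/3):ℝ) * L := by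
            rw [← Real.rpow_add hD0, add_neg_cancel, Real.rpow_zero, mul_one]
    have hexp : C * (((N:ℝ) / D) ^ 2 + D ^ (7/3:ℝ) * (A * thin n D) ^ (-(4/3):ℝ)) ≤
        C * (4 / c ^ 2) + 1/2 * L := by
      calc C * (((N:ℝ) / D) ^ 2 + D ^ (7/3:ℝ) * (A * thin n D) ^ (-(4/3):ℝ))
          ≤ C * (4 / c ^ 2 + A ^ (-(4/3):ℝ) * L) :=
            mul_le_mul_of_nonneg_left (add_le_add hND hz) hC.le
        _ = C * (4 / c ^ 2) + (C * A ^ (-(4/3):ℝ)) * L := by ring
        _ ≤ _ := by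
            have := mul_le_mul_of_nonneg_right hAC hL0.le
            linarith
    have hq2 : Real.exp (-(C * (4 / c ^ 2))) * (2 * R ^ (1/2:ℝ))⁻¹ ≤
        Real.exp (-(C * (((N:ℝ) / D) ^ 2 + D ^ (7/3:ℝ) * (A * thin n D) ^ (-(4/3):ℝ)))) := by
      have h1 : Real.exp (-(C * (4 / c ^ 2))) * Real.exp (-(1/2 * L)) ≤
        Real.exp (-(C * (((N:ℝ) / D) ^ 2 + D ^ (7/3:ℝ) * (A * thin n D) ^ (-(4/3):ℝ)))) := by
        rw [← Real.exp_add]
        apply Real.exp_le_exp.mpr
        linarith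
      have h2 : Real.exp (-(1/2 * L)) = (2 * R ^ (1/2:ℝ))⁻¹ := by
        rw [Real.exp_neg]
        congr 1
        rw [hL, h4R, mul_comm (1/2:ℝ), ← Real.rpow_def_of_pos (by positivity),
          Real.mul_rpow (by norm_num) hR0.le]
        congr 1
        rw [show (4:ℝ) = 2 ^ (2:ℝ) by norm_num, ← Real.rpow_mul (by norm_num)]
        norm_num
      rwa [h2] at h1
    have hsq : R ^ (1/2:ℝ) * R ^ (1/2:ℝ) = R := by
      rw [← Real.rpow_add hR0]
      norm_num
    have hr0 : 0 < R ^ (1/2:ℝ) := by positivity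
    have hκR : 1 ≤ κ * R ^ (1/2:ℝ) := by
      have h1 : (1 / κ ^ 2) ^ (1/2:ℝ) ≤ R ^ (1/2:ℝ) :=
        Real.rpow_le_rpow k2.le (by linarith) (by norm_num)
      have h2 : (1 / κ ^ 2) ^ (1/2:ℝ) = 1 / κ := by
        rw [← Real.sqrt_eq_rpow, Real.sqrt_eq_iff_mul_self_eq_of_pos (by positivity)]
        field_simp
      rw [h2, div_le_iff₀ hκ0] at h1
      linarith
    calc R ≤ R * (κ * R ^ (1/2:ℝ)) := by
          have := mul_le_mul_of_nonneg_left hκR hR0.le
          linarith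
      _ = Real.exp (-(C * (4 / c ^ 2))) * (2 * R ^ (1/2:ℝ))⁻¹ * (c / 6 * R) ^ 2 := by
          rw [hκ]
          have h5 : R * (Real.exp (-(C * (4 / c ^ 2))) * c ^ 2 / 72 * R ^ (1/2:ℝ)) =
            Real.exp (-(C * (4 / c ^ 2))) * c ^ 2 / 72 * (R * R ^ (1/2:ℝ)) := by ring
          rw [h5]
          have h6 : Real.exp (-(C * (4 / c ^ 2))) * (2 * R ^ (1/2:ℝ))⁻¹ * (c / 6 * R) ^ 2 =
            Real.exp (-(C * (4 / c ^ 2))) * c ^ 2 / 72 * (R * R * (R ^ (1/2:ℝ))⁻¹) := by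
            rw [mul_inv]
            ring
          rw [h6]
          congr 1
          rw [eq_mul_inv_iff_mul_eq₀ hr0.ne', mul_assoc, hsq]
      _ ≤ Real.exp (-(C * (4 / c ^ 2))) * (2 * R ^ (1/2:ℝ))⁻¹ * (M:ℝ) ^ 2 := by
          apply mul_le_mul_of_nonneg_left _ (by positivity)
          exact pow_le_pow_left₀ (by positivity) hM3 2
      _ ≤ _ := mul_le_mul_of_nonneg_right hq2 (by positivity)

/-- `thin` at comparable scales -/
theorem thin_two {n : ℕ} {D D' : ℝ} (hD : 0 < D) (hDn : D ≤ n) (h1 : D ≤ D') (h2 : D' ≤ 2 * D) :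
    thin n D' ≤ 8 * thin n D := by
  have hD'0 : 0 < D' := by linarith
  have hn0 : (0:ℝ) < n := by linarith
  have hL4 : Real.log 4 ≤ Real.log (4 * n / D) := by
    apply Real.log_le_log (by norm_num)
    rw [le_div_iff₀ hD]
    linarith
  have hl4 : Real.log 4 = 2 * Real.log 2 := by
    rw [show (4:ℝ) = 2 ^ 2 by norm_num, Real.log_pow]; push_cast; ring
  have hl2 : 0 < Real.log 2 := Real.log_pos (by norm_num)
  have hL0 : 0 < Real.log (4 * n / D) := by linarith
  have hL : Real.log (4 * n / D) / 2 ≤ Real.log (4 * n / D') := by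
    have h3 : Real.log (4 * n / (2 * D)) = Real.log (4 * n / D) - Real.log 2 := by
      rw [← Real.log_div (by positivity) (by norm_num)]
      congr 1
      field_simp
    have h4 : Real.log (4 * n / (2 * D)) ≤ Real.log (4 * n / D') := by
      apply Real.log_le_log (by positivity)
      exact div_le_div_of_nonneg_left (by positivity) hD'0 h2
    linarith
  have hth0 : 0 < thin n D := lt_of_lt_of_le hD (le_max_left _ _)
  unfold thin
  apply max_le
  · have : D ≤ thin n D := le_max_left _ _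
    unfold thin at this hth0
    linarith
  · have e1 : D' ^ (7/4:ℝ) ≤ 4 * D ^ (7/4:ℝ) := by
      calc D' ^ (7/4:ℝ) ≤ (2 * D) ^ (7/4:ℝ) := Real.rpow_le_rpow hD'0.le h2 (by norm_num)
        _ = 2 ^ (7/4:ℝ) * D ^ (7/4:ℝ) := Real.mul_rpow (by norm_num) hD.le
        _ ≤ 2 ^ (2:ℝ) * D ^ (7/4:ℝ) := by
            apply mul_le_mul_of_nonneg_right _ (by positivity)
            exact Real.rpow_le_rpow_of_exponent_le (by norm_num) (by norm_num)
        _ = _ := by norm_num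
    have e2 : (Real.log (4 * n / D')) ^ (-(3/4):ℝ) ≤ 2 * (Real.log (4 * n / D)) ^ (-(3/4):ℝ) := by
      calc (Real.log (4 * n / D')) ^ (-(3/4):ℝ)
          ≤ (Real.log (4 * n / D) / 2) ^ (-(3/4):ℝ) :=
            Real.rpow_le_rpow_of_nonpos (by positivity) hL (by norm_num)
        _ = 2 ^ (3/4:ℝ) * (Real.log (4 * n / D)) ^ (-(3/4):ℝ) := by
            rw [Real.div_rpow hL0.le (by norm_num), Real.rpow_neg (by norm_num : (0:ℝ) ≤ 2)]
            field_simp
        _ ≤ 2 ^ (1:ℝ) * (Real.log (4 * n / D)) ^ (-(3/4):ℝ) := by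
            apply mul_le_mul_of_nonneg_right _ (by positivity)
            exact Real.rpow_le_rpow_of_exponent_le (by norm_num) (by norm_num)
        _ = _ := by rw [Real.rpow_one]
    have e3 : 0 ≤ (Real.log (4 * n / D')) ^ (-(3/4):ℝ) := by
      apply Real.rpow_nonneg
      linarith
    calc D' ^ (7/4:ℝ) * (Real.log (4 * n / D')) ^ (-(3/4):ℝ)
        ≤ (4 * D ^ (7/4:ℝ)) * (2 * (Real.log (4 * n / D)) ^ (-(3/4):ℝ)) :=
          mul_le_mul e1 e2 e3 (by positivity)
      _ = 8 * (D ^ (7/4:ℝ) * (Real.log (4 * n / D)) ^ (-(3/4):ℝ)) := by ring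
      _ ≤ _ := mul_le_mul_of_nonneg_left (le_max_right _ _) (by norm_num)

theorem all_scales {C0 : ℝ} (hC0 : 0 < C0) (hU : TwoUp C0 (1/4)) : ∃ K : ℝ, 1 ≤ K ∧
    ∀ (n : ℕ) (T : ℝ), K ≤ T →
      Plain.prob n (fun F => ¬ ∀ D : ℝ, K ≤ D → T * D ≤ n →
        ∃ v, DiamGe F v D ∧ DiamLe F v (8 * D) ∧
          (Plain.perimeter F v : ℝ) ≤ K * thin n D) ≤ 2 * Real.exp (-T) := by
  obtain ⟨K, hK, h⟩ := one_scale hC0 hU
  have hK0 : 0 < K := by linarith
  refine ⟨8 * K, by linarith, ?_⟩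
  intro n T hT
  have hT8 : 8 ≤ T := by linarith
  have hT0 : 0 < T := by linarith
  obtain ⟨Dj, hDj⟩ : ∃ Dj : ℕ → ℝ, Dj = fun j => n / (T * 2 ^ j) := ⟨_, rfl⟩
  obtain ⟨A, hA⟩ : ∃ A : ℕ → Finset Plain.Edge → Prop, A = fun j F => K ≤ Dj j ∧
    ¬ ∃ v, DiamGe F v (Dj j) ∧ DiamLe F v (4 * Dj j) ∧
        (Plain.perimeter F v : ℝ) ≤ K * thin n (Dj j) := ⟨_, rfl⟩
  have hAp : ∀ j, Pr (fun _ => (1/2:ℝ)) (RE 0 n 0 n) (A j) ≤ Real.exp (-T) * (1/2) ^ j := by
    intro j
    have hexp : Real.exp (-(T * 2 ^ j)) ≤ Real.exp (-T) * (1/2) ^ j := by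
      have h1 : ((j:ℝ) + 1) ≤ 2 ^ j := by
        have : j + 1 ≤ 2 ^ j := Nat.lt_two_pow_self
        exact_mod_cast this
      have h2 : Real.exp (-(T * 2 ^ j)) ≤ Real.exp (-(T * (j + 1))) := by
        apply Real.exp_le_exp.mpr
        have := mul_le_mul_of_nonneg_left h1 hT0.le
        linarith
      have h3 : Real.exp (-(T * ((j:ℝ) + 1))) = Real.exp (-T) * Real.exp (-T) ^ j := by
        rw [← Real.exp_nat_mul, ← Real.exp_add]
        congr 1
        ring
      have h4 : Real.exp (-T) ≤ 1/2 := by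
        rw [Real.exp_neg, one_div]
        apply inv_anti₀ (by norm_num)
        have := Real.add_one_le_exp T
        linarith
      rw [h3] at h2
      refine h2.trans ?_
      exact mul_le_mul_of_nonneg_left (pow_le_pow_left₀ (Real.exp_nonneg _) h4 j)
        (Real.exp_nonneg _)
    by_cases hc : K ≤ Dj j
    · have h1 : K * Dj j ≤ n := by
        rw [hDj]
        simp only
        have h2 : (1:ℝ) ≤ 2 ^ j := one_le_pow₀ (by norm_num)
        have h3 : K ≤ T * 2 ^ j := by nlinarith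
        rw [mul_div_assoc', div_le_iff₀ (by positivity)]
        have : (0:ℝ) ≤ n := Nat.cast_nonneg _
        nlinarith
      have h2 := h n (Dj j) hc h1
      have h3 : (n:ℝ) / Dj j = T * 2 ^ j := by
        have hn0 : (0:ℝ) < n := lt_of_lt_of_le (by nlinarith) h1
        rw [hDj]
        simp only
        field_simp
      rw [h3, Plain.prob_eq] at h2
      refine le_trans (Pr_mono hok ?_) (h2.trans hexp)
      intro F _ hF
      rw [hA] at hF
      exact hF.2
    · have h1 : Pr (fun _ => (1/2:ℝ)) (RE 0 n 0 n) (A j) ≤ 0 := by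
        refine le_of_eq ?_
        unfold Pr
        rw [Ex_congr (g := fun _ => 0) (fun F _ => ind_not_of (by
          rw [hA]
          exact fun hF => hc hF.1)), Ex_const]
      refine h1.trans (by positivity)
  have hmain : Plain.prob n (fun F => ¬ ∀ D : ℝ, 8 * K ≤ D → T * D ≤ n →
        ∃ v, DiamGe F v D ∧ DiamLe F v (8 * D) ∧
          (Plain.perimeter F v : ℝ) ≤ 8 * K * thin n D) ≤
      Pr (fun _ => (1/2:ℝ)) (RE 0 n 0 n) (fun F => ∃ j ∈ Finset.range n, A j F) := by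
    refine Plain.prob_le_of_pr fun F hF => ?_
    intro hno
    push Not at hno
    obtain ⟨D, hD1, hD2, hD3⟩ := hno
    have hD0 : 0 < D := by linarith
    have hD1' : 1 ≤ D := by linarith
    have hn0 : (0:ℝ) < n := lt_of_lt_of_le (by positivity) hD2
    obtain ⟨j, hj1, hj2⟩ := exists_nat_pow_near (x := n / (T * D)) (y := (2:ℝ))
      (by rw [le_div_iff₀ (by positivity)]; linarith) (by norm_num)
    rw [le_div_iff₀ (by positivity)] at hj1
    rw [div_lt_iff₀ (by positivity), pow_succ] at hj2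
    have g1 : D ≤ Dj j := by
      rw [hDj]
      simp only
      rw [le_div_iff₀ (by positivity)]
      linarith
    have g2 : Dj j ≤ 2 * D := by
      rw [hDj]
      simp only
      rw [div_le_iff₀ (by positivity)]
      linarith
    refine ⟨j, ?_, ?_⟩
    · rw [Finset.mem_range]
      have h1 : (2:ℝ) ^ j ≤ n := by
        have h2 : (1:ℝ) ≤ T * D := by nlinarith
        have h3 : (0:ℝ) < 2 ^ j := by positivity
        nlinarith
      have h2 : (2:ℕ) ^ j ≤ n := by exact_mod_cast h1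
      exact lt_of_lt_of_le (Nat.lt_two_pow_self) h2
    · rw [hA]
      refine ⟨by linarith, ?_⟩
      rintro ⟨v, e1, e2, e3⟩
      have hDn : D ≤ n := by nlinarith
      refine absurd (hD3 v ?_ ?_) (not_lt.mpr ?_)
      · obtain ⟨a, ha, b, hb, hab⟩ := e1
        exact ⟨a, ha, b, hb, g1.trans hab⟩
      · intro a ha b hb
        exact (e2 a ha b hb).trans (by linarith)
      · refine e3.trans ?_
        have := thin_two hD0 hDn g1 g2
        calc K * thin n (Dj j) ≤ K * (8 * thin n D) := mul_le_mul_of_nonneg_left this hK0.le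
          _ = 8 * K * thin n D := by ring
  refine hmain.trans ?_
  refine (Pr_exists_le hok _ _ _).trans ?_
  refine (Finset.sum_le_sum fun j _ => hAp j).trans ?_
  rw [← Finset.mul_sum]
  have hgeo : ∑ i ∈ Finset.range n, ((1:ℝ)/2) ^ i ≤ 2 := sum_geometric_two_le n
  have := mul_le_mul_of_nonneg_left hgeo (Real.exp_nonneg (-T))
  linarith

end Pool.Agent.X135.TC
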