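import Pool.Agent.X135.TC.Fat2

/-!
The weaker form of the dimension statement for all clusters at the same time.
-/

set_option autoImplicit false

namespace Pool.Agent.X135.TC

open H974 Finset H342P H984P Filter Topology Pool.Agent.X135.PL

theorem log_ev {ε : ℝ} (hε : 0 < ε) : ∀ᶠ n : ℕ in atTop,
    2 * (Real.log (4 * n)) ^ 2 ≤ (n:ℝ) ^ (ε ^ 2) := by
  obtain ⟨δ, hδ⟩ : ∃ δ : ℝ, δ = ε ^ 2 / 4 := ⟨_, rfl⟩
  have hδ0 : 0 < δ := by rw [hδ]; positivity
  have h1 : Tendsto (fun n : ℕ => (n:ℝ) ^ (2 * δ)) atTop atTop :=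
    (tendsto_rpow_atTop (by positivity)).comp tendsto_natCast_atTop_atTop
  filter_upwards [h1.eventually_ge_atTop (2 * 4 ^ (2 * δ) / δ ^ 2), eventually_ge_atTop 1]
    with n hn hn1
  have hn0 : (0:ℝ) < n := by exact_mod_cast hn1
  have hlog0 : 0 ≤ Real.log (4 * n) := by
    apply Real.log_nonneg
    have : (1:ℝ) ≤ n := by exact_mod_cast hn1
    linarith
  have h2 : Real.log (4 * n) ≤ (4 * n) ^ δ / δ := Real.log_le_rpow_div (by positivity) hδ0
  have h3 : (Real.log (4 * n)) ^ 2 ≤ ((4 * n) ^ δ / δ) ^ 2 := pow_le_pow_left₀ hlog0 h2 2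
  have h4 : (((4:ℝ) * n) ^ δ / δ) ^ 2 = 4 ^ (2 * δ) / δ ^ 2 * (n:ℝ) ^ (2 * δ) := by
    rw [div_pow, ← Real.rpow_natCast (((4:ℝ) * n) ^ δ) 2, ← Real.rpow_mul (by positivity),
      Real.mul_rpow (by norm_num) hn0.le]
    push_cast
    rw [mul_comm δ 2]
    ring
  have h5 : (n:ℝ) ^ (ε ^ 2) = (n:ℝ) ^ (2 * δ) * (n:ℝ) ^ (2 * δ) := by
    rw [← Real.rpow_add hn0, hδ]
    congr 1
    ring
  rw [h4] at h3
  rw [h5]
  have h6 : 0 < (n:ℝ) ^ (2 * δ) := by positivity
  calc 2 * (Real.log (4 * n)) ^ 2 ≤ 2 * (4 ^ (2 * δ) / δ ^ 2 * (n:ℝ) ^ (2 * δ)) := by linarith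
    _ = (2 * 4 ^ (2 * δ) / δ ^ 2) * (n:ℝ) ^ (2 * δ) := by ring
    _ ≤ _ := mul_le_mul_of_nonneg_right hn h6.le

theorem weak_all {c C : ℝ} (hc : 0 < c)
    (hlow : ∀ (n : ℕ) (θ : ℝ), 1 ≤ n → 0 < θ →
      Plain.prob n (fun F => ∃ v, ∃ r : ℝ, 1 ≤ r ∧ DiamGe F v r ∧
        (Plain.perimeter F v : ℝ) < θ * thin n r) ≤ C * Real.exp (-(c * θ ^ (-(4/3):ℝ))))
    (hup : ∀ (n : ℕ) (θ : ℝ), 1 ≤ n → 0 ≤ θ →
      Plain.prob n (fun F => ∃ v, ∃ r : ℝ, 1 ≤ r ∧ DiamGe F v r ∧ DiamLe F v r ∧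
        θ * fat n r < (Plain.perimeter F v : ℝ)) ≤ C * Real.exp (-(c * θ ^ 8)))
    {ε : ℝ} (hε : 0 < ε) :
    Tendsto (fun n : ℕ => Plain.prob n (fun F => ∀ v, ∀ r : ℝ, (n:ℝ) ^ ε ≤ r → DiamGe F v r →
      DiamLe F v r → r ^ (7/4 - ε) < (Plain.perimeter F v : ℝ) ∧
        (Plain.perimeter F v : ℝ) < r ^ (7/4 + ε))) atTop (𝓝 1) := by
  have hlogT : Tendsto (fun n : ℕ => Real.log n) atTop atTop :=
    Real.tendsto_log_atTop.comp tendsto_natCast_atTop_atTop
  have hT1 : Tendsto (fun n : ℕ => C * Real.exp (-(c * ((Real.log n)⁻¹) ^ (-(4/3):ℝ))))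
      atTop (𝓝 0) := by
    have h1 : Tendsto (fun n : ℕ => c * (Real.log n) ^ (4/3:ℝ)) atTop atTop :=
      ((tendsto_rpow_atTop (by norm_num)).comp hlogT).const_mul_atTop hc
    have h2 := (Real.tendsto_exp_neg_atTop_nhds_zero.comp h1).const_mul C
    rw [mul_zero] at h2
    refine h2.congr' ?_
    filter_upwards [eventually_ge_atTop 1] with n hn
    have hl : 0 ≤ Real.log n := Real.log_natCast_nonneg n
    simp only [Function.comp_apply]
    rw [Real.inv_rpow hl, ← Real.rpow_neg hl, neg_neg]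
  have hT2 : Tendsto (fun n : ℕ => C * Real.exp (-(c * (Real.log n) ^ 8))) atTop (𝓝 0) := by
    have h1 : Tendsto (fun n : ℕ => c * (Real.log n) ^ 8) atTop atTop :=
      ((tendsto_pow_atTop (by norm_num)).comp hlogT).const_mul_atTop hc
    have h2 := (Real.tendsto_exp_neg_atTop_nhds_zero.comp h1).const_mul C
    rw [mul_zero] at h2
    exact h2
  have hlim : Tendsto (fun n : ℕ => 1 - (C * Real.exp (-(c * ((Real.log n)⁻¹) ^ (-(4/3):ℝ))) +
      C * Real.exp (-(c * (Real.log n) ^ 8)))) atTop (𝓝 1) := by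
    have h3 := (hT1.add hT2).const_sub 1
    simpa using h3
  refine tendsto_of_tendsto_of_tendsto_of_le_of_le' hlim tendsto_const_nhds ?_ ?_
  · filter_upwards [log_ev hε, eventually_ge_atTop 3] with n hn hn3
    have hn1 : 1 ≤ n := by omega
    have hn0 : (0:ℝ) < n := by exact_mod_cast hn1
    have hn3' : (3:ℝ) ≤ n := by exact_mod_cast hn3
    have hlog1 : 1 ≤ Real.log n := by
      rw [Real.le_log_iff_exp_le hn0]
      have := Real.exp_one_lt_d9
      linarith
    have hlog4 : Real.log n ≤ Real.log (4 * n) := Real.log_le_log hn0 (by linarith)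
    have e1 := hlow n (Real.log n)⁻¹ hn1 (by positivity)
    have e2 := hup n (Real.log n) hn1 (by linarith)
    obtain ⟨good, hgood⟩ : ∃ good : Finset Plain.Edge → Prop, good = fun F => ∀ v, ∀ r : ℝ,
      (n:ℝ) ^ ε ≤ r → DiamGe F v r → DiamLe F v r → r ^ (7/4 - ε) < (Plain.perimeter F v : ℝ) ∧
        (Plain.perimeter F v : ℝ) < r ^ (7/4 + ε) := ⟨_, rfl⟩
    rw [← hgood]
    have h0 := Plain.prob_not n good
    have h1 : Plain.prob n (fun F => ¬ good F) ≤
        Plain.prob n (fun F => ∃ v, ∃ r : ℝ, 1 ≤ r ∧ DiamGe F v r ∧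
          (Plain.perimeter F v : ℝ) < (Real.log n)⁻¹ * thin n r) +
        Plain.prob n (fun F => ∃ v, ∃ r : ℝ, 1 ≤ r ∧ DiamGe F v r ∧ DiamLe F v r ∧
          Real.log n * fat n r < (Plain.perimeter F v : ℝ)) := by
      rw [Plain.prob_eq n (fun F => ∃ v, ∃ r : ℝ, 1 ≤ r ∧ DiamGe F v r ∧
          (Plain.perimeter F v : ℝ) < (Real.log n)⁻¹ * thin n r),
        Plain.prob_eq n (fun F => ∃ v, ∃ r : ℝ, 1 ≤ r ∧ DiamGe F v r ∧ DiamLe F v r ∧
          Real.log n * fat n r < (Plain.perimeter F v : ℝ))]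
      refine le_trans ?_ (Pr_or_le hok _ _ _)
      refine Plain.prob_le_of_pr fun F hF hng => ?_
      rw [hgood] at hng
      push Not at hng
      obtain ⟨v, r, hr, hG, hL, hb⟩ := hng
      have hnε : 1 ≤ (n:ℝ) ^ ε := Real.one_le_rpow (by linarith) hε.le
      have hr1 : 1 ≤ r := hnε.trans hr
      have hr0 : 0 < r := by linarith
      obtain ⟨g1, -⟩ := diam_facts hF hr1 hG
      -- the logarithm
      have hLL : 0 < Real.log (4 * n / r) := by
        apply Real.log_pos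
        rw [lt_div_iff₀ hr0]
        linarith
      have hLle : Real.log (4 * n / r) ≤ Real.log (4 * n) := by
        apply Real.log_le_log (by positivity)
        exact div_le_self (by positivity) hr1
      have hl4 : 1 ≤ Real.log (4 * n) := hlog1.trans hlog4
      have hrε : 2 * (Real.log (4 * n)) ^ 2 ≤ r ^ ε := by
        refine hn.trans ?_
        rw [sq ε, Real.rpow_mul hn0.le]
        exact Real.rpow_le_rpow (by positivity) hr hε.le
      have hsq : Real.log n * Real.log (4 * n) ≤ (Real.log (4 * n)) ^ 2 := by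
        rw [sq]
        exact mul_le_mul_of_nonneg_right hlog4 (by linarith)
      have hpos : 0 < (Real.log (4 * n)) ^ 2 := by positivity
      have hlt : Real.log n * Real.log (4 * n) < r ^ ε := by linarith
      by_cases hb1 : r ^ (7/4 - ε) < (Plain.perimeter F v : ℝ)
      · right
        refine ⟨v, r, hr1, hG, hL, ?_⟩
        have h2 := hb hb1
        refine lt_of_lt_of_le ?_ h2
        unfold fat
        rw [Real.rpow_add hr0]
        have h3 : (Real.log (4 * n / r)) ^ (1/8:ℝ) ≤ Real.log (4 * n) := by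
          calc (Real.log (4 * n / r)) ^ (1/8:ℝ) ≤ (Real.log (4 * n)) ^ (1/8:ℝ) :=
                Real.rpow_le_rpow hLL.le hLle (by norm_num)
            _ ≤ (Real.log (4 * n)) ^ (1:ℝ) :=
                Real.rpow_le_rpow_of_exponent_le hl4 (by norm_num)
            _ = _ := Real.rpow_one _
        have h4 : 0 < r ^ (7/4:ℝ) := by positivity
        calc Real.log n * (r ^ (7/4:ℝ) * (Real.log (4 * n / r)) ^ (1/8:ℝ))
            ≤ Real.log n * (r ^ (7/4:ℝ) * Real.log (4 * n)) := by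
              apply mul_le_mul_of_nonneg_left _ (by linarith)
              exact mul_le_mul_of_nonneg_left h3 h4.le
          _ = r ^ (7/4:ℝ) * (Real.log n * Real.log (4 * n)) := by ring
          _ < r ^ (7/4:ℝ) * r ^ ε := mul_lt_mul_of_pos_left hlt h4
      · left
        refine ⟨v, r, hr1, hG, ?_⟩
        push Not at hb1
        refine lt_of_le_of_lt hb1 ?_
        have h3 : (Real.log (4 * n))⁻¹ ≤ (Real.log (4 * n / r)) ^ (-(3/4):ℝ) := by
          rw [Real.rpow_neg hLL.le]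
          apply inv_anti₀ (by positivity)
          calc (Real.log (4 * n / r)) ^ (3/4:ℝ) ≤ (Real.log (4 * n)) ^ (3/4:ℝ) :=
                Real.rpow_le_rpow hLL.le hLle (by norm_num)
            _ ≤ (Real.log (4 * n)) ^ (1:ℝ) :=
                Real.rpow_le_rpow_of_exponent_le hl4 (by norm_num)
            _ = _ := Real.rpow_one _
        have h4 : 0 < r ^ (7/4:ℝ) := by positivity
        have h5 : r ^ (7/4 - ε) = r ^ (7/4:ℝ) * (r ^ ε)⁻¹ := by
          rw [Real.rpow_sub hr0, div_eq_mul_inv]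
        have h6 : (r ^ ε)⁻¹ < (Real.log n * Real.log (4 * n))⁻¹ :=
          inv_strictAnti₀ (by positivity) hlt
        rw [h5]
        calc r ^ (7/4:ℝ) * (r ^ ε)⁻¹ < r ^ (7/4:ℝ) * (Real.log n * Real.log (4 * n))⁻¹ :=
              mul_lt_mul_of_pos_left h6 h4
          _ = (Real.log n)⁻¹ * (r ^ (7/4:ℝ) * (Real.log (4 * n))⁻¹) := by
              rw [mul_inv]
              ring
          _ ≤ (Real.log n)⁻¹ * thin n r := by
              apply mul_le_mul_of_nonneg_left _ (by positivity)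
              unfold thin
              refine le_trans ?_ (le_max_right _ _)
              exact mul_le_mul_of_nonneg_left h3 h4.le
    linarith
  · filter_upwards with n
    rw [Plain.prob_eq]
    exact Pr_le_one hok _ _

end Pool.Agent.X135.TC
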